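import Pool.Agent.N831.LI.Neg

/-!
# The kernel of the Li coefficients on the critical line
-/

set_option autoImplicit false

open Complex Filter Topology Finset MeasureTheory

namespace Pool.Agent.U156.LZ

open Pool.Agent.N831.LI (W)

noncomputable section

/-- `W` on the line -/
def wl (b y : ℝ) : ℂ := W b ((y : ℂ) * I)

/-- `1 - w` -/
def ul (b y : ℝ) : ℂ := 2 * b / ((b : ℂ) + (y : ℂ) * I)

/-- the kernel -/
def fk (b : ℝ) (n : ℕ) (y : ℝ) : ℝ := 1 - (wl b y ^ n).re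

lemma den_ne {b : ℝ} (hb : 0 < b) (y : ℝ) : (b : ℂ) + (y : ℂ) * I ≠ 0 := by
  intro h
  have := congrArg Complex.re h
  simp at this
  exact hb.ne' this

lemma normSq_den (b y : ℝ) : Complex.normSq ((b : ℂ) + (y : ℂ) * I) = b ^ 2 + y ^ 2 := by
  rw [Complex.normSq_apply]
  simp
  ring

lemma norm_den_sq (b y : ℝ) : ‖(b : ℂ) + (y : ℂ) * I‖ ^ 2 = b ^ 2 + y ^ 2 := by
  rw [← Complex.normSq_eq_norm_sq, normSq_den]

lemma wl_eq {b : ℝ} (hb : 0 < b) (y : ℝ) : wl b y = 1 - ul b y := by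
  unfold wl ul
  rw [Pool.Agent.N831.LI.W_one_sub, add_comm]
  rw [add_comm]
  exact den_ne hb y

lemma wl_norm {b : ℝ} (hb : 0 < b) (y : ℝ) : ‖wl b y‖ = 1 := by
  have h1 : ‖(y : ℂ) * I - b‖ = ‖(y : ℂ) * I + b‖ := by
    have e1 : ‖(y : ℂ) * I - b‖ ^ 2 = ‖(y : ℂ) * I + b‖ ^ 2 := by
      rw [← Complex.normSq_eq_norm_sq, ← Complex.normSq_eq_norm_sq, Complex.normSq_apply, Complex.normSq_apply]
      simp
    exact (pow_left_inj₀ (norm_nonneg _) (norm_nonneg _) two_ne_zero).1 e1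
  unfold wl W
  rw [norm_div, h1, div_self]
  rw [norm_ne_zero_iff, add_comm]
  exact den_ne hb y

lemma ul_norm_sq {b : ℝ} (hb : 0 < b) (y : ℝ) : ‖ul b y‖ ^ 2 = 4 * b ^ 2 / (b ^ 2 + y ^ 2) := by
  unfold ul
  rw [norm_div, div_pow, norm_den_sq]
  congr 1
  rw [norm_mul, Complex.norm_real, Real.norm_eq_abs, abs_of_pos hb]
  norm_num
  ring

lemma ul_re {b : ℝ} (hb : 0 < b) (y : ℝ) : (ul b y).re = 2 * b ^ 2 / (b ^ 2 + y ^ 2) := by
  unfold ul
  have h : (2 * b / ((b : ℂ) + (y : ℂ) * I) : ℂ) = ((2 * b : ℝ) : ℂ) * ((b : ℂ) + (y : ℂ) * I)⁻¹ := by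
    push_cast
    rw [div_eq_mul_inv]
  rw [h, Complex.re_ofReal_mul, Complex.inv_re, normSq_den]
  simp
  ring

lemma fk_zero (b y : ℝ) : fk b 0 y = 0 := by simp [fk]

lemma fk_nonneg {b : ℝ} (hb : 0 < b) (n : ℕ) (y : ℝ) : 0 ≤ fk b n y := by
  unfold fk
  have h1 : ‖wl b y ^ n‖ = 1 := by rw [norm_pow, wl_norm hb, one_pow]
  have h2 := Complex.re_le_norm (wl b y ^ n)
  linarith

lemma fk_le_two {b : ℝ} (hb : 0 < b) (n : ℕ) (y : ℝ) : fk b n y ≤ 2 := by
  unfold fk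
  have h1 : ‖wl b y ^ n‖ = 1 := by rw [norm_pow, wl_norm hb, one_pow]
  have h2 := Complex.abs_re_le_norm (wl b y ^ n)
  have := neg_abs_le (wl b y ^ n).re
  linarith

/-- `|a^n - c^n| ≤ n |a - c|` for `|a|, |c| ≤ 1` -/
lemma pow_sub_le {a c : ℂ} (ha : ‖a‖ ≤ 1) (hc : ‖c‖ ≤ 1) (n : ℕ) : ‖a ^ n - c ^ n‖ ≤ n * ‖a - c‖ := by
  induction n with
  | zero => simp
  | succ n ih =>
    have e : a ^ (n + 1) - c ^ (n + 1) = a * (a ^ n - c ^ n) + (a - c) * c ^ n := by ring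
    rw [e]
    have h1 : ‖c ^ n‖ ≤ 1 := by rw [norm_pow]; exact pow_le_one₀ (norm_nonneg _) hc
    calc ‖a * (a ^ n - c ^ n) + (a - c) * c ^ n‖ ≤ ‖a‖ * ‖a ^ n - c ^ n‖ + ‖a - c‖ * ‖c ^ n‖ := by
          refine (norm_add_le _ _).trans ?_
          rw [norm_mul, norm_mul]
      _ ≤ 1 * (n * ‖a - c‖) + ‖a - c‖ * 1 := by gcongr
      _ = _ := by push_cast; ring

/-- `1 - Re w ^ n` for a unit `w` -/
lemma one_sub_re {w : ℂ} (hw : ‖w‖ = 1) : 1 - w.re = ‖1 - w‖ ^ 2 / 2 := by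
  have h1 : w.re ^ 2 + w.im ^ 2 = 1 := by
    have := Complex.normSq_apply w
    rw [Complex.normSq_eq_norm_sq, hw] at this
    nlinarith
  rw [← Complex.normSq_eq_norm_sq, Complex.normSq_apply]
  simp only [Complex.sub_re, Complex.one_re, Complex.sub_im, Complex.one_im]
  nlinarith

lemma fk_le {b : ℝ} (hb : 0 < b) (n : ℕ) (y : ℝ) : fk b n y ≤ 2 * (n * b) ^ 2 / (b ^ 2 + y ^ 2) := by
  have h1 : ‖wl b y ^ n‖ = 1 := by rw [norm_pow, wl_norm hb, one_pow]
  unfold fk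
  rw [one_sub_re h1]
  have h2 := pow_sub_le (a := 1) (c := wl b y) (by simp) (wl_norm hb y).le n
  rw [one_pow] at h2
  have h3 : 1 - wl b y = ul b y := by rw [wl_eq hb]; ring
  rw [h3] at h2
  have h4 : ‖1 - wl b y ^ n‖ ^ 2 ≤ (n * ‖ul b y‖) ^ 2 := pow_le_pow_left₀ (norm_nonneg _) h2 2
  rw [mul_pow, ul_norm_sq hb] at h4
  have e : (2 : ℝ) * (n * b) ^ 2 / (b ^ 2 + y ^ 2) = (n : ℝ) ^ 2 * (4 * b ^ 2 / (b ^ 2 + y ^ 2)) / 2 := by ring
  rw [e]
  linarith

lemma fk_le' {b : ℝ} (hb : 0 < b) (n : ℕ) {y : ℝ} (hy : 0 < y) : fk b n y ≤ 2 * (n * b) ^ 2 / y ^ 2 := by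
  refine (fk_le hb n y).trans ?_
  apply div_le_div_of_nonneg_left (by positivity) (by positivity)
  nlinarith

lemma wl_sub {b : ℝ} (hb : 0 < b) {y y' : ℝ} (hy : 0 < y) (hy' : 0 < y') :
    ‖wl b y - wl b y'‖ ≤ 2 * b * |y - y'| / (y * y') := by
  rw [wl_eq hb, wl_eq hb]
  have h1 := den_ne hb y
  have h2 := den_ne hb y'
  have e : (1 - ul b y) - (1 - ul b y') = (2 * b * ((y - y' : ℝ) : ℂ) * I) / (((b : ℂ) + (y : ℂ) * I) * ((b : ℂ) + (y' : ℂ) * I)) := by
    have e0 : ((b : ℂ) + (y : ℂ) * I) - ((b : ℂ) + (y' : ℂ) * I) = ((y - y' : ℝ) : ℂ) * I := by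
      push_cast; ring
    have e1 : (2 * b * ((y - y' : ℝ) : ℂ) * I) = 2 * b * (((b : ℂ) + (y : ℂ) * I) - ((b : ℂ) + (y' : ℂ) * I)) := by
      rw [e0, mul_assoc]
    unfold ul
    rw [e1]
    generalize (b : ℂ) + (y : ℂ) * I = D at h1
    generalize (b : ℂ) + (y' : ℂ) * I = D' at h2
    field_simp
    ring
  rw [e, norm_div, norm_mul, norm_mul, norm_mul, norm_mul, Complex.norm_I, Complex.norm_real, Complex.norm_real,
    Real.norm_eq_abs, Real.norm_eq_abs, abs_of_pos hb, mul_one]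
  have e2 : ‖(2 : ℂ)‖ = 2 := by norm_num
  rw [e2]
  apply div_le_div_of_nonneg_left (by positivity) (by positivity)
  apply mul_le_mul _ _ hy'.le (norm_nonneg _)
  · have := Complex.abs_im_le_norm ((b : ℂ) + (y : ℂ) * I)
    simp at this
    exact (le_abs_self y).trans this
  · have := Complex.abs_im_le_norm ((b : ℂ) + (y' : ℂ) * I)
    simp at this
    exact (le_abs_self y').trans this

lemma fk_sub {b : ℝ} (hb : 0 < b) (n : ℕ) {y y' : ℝ} (hy : 0 < y) (hy' : 0 < y') :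
    |fk b n y - fk b n y'| ≤ 2 * (n * b) * |y - y'| / (y * y') := by
  have e : fk b n y - fk b n y' = (wl b y' ^ n - wl b y ^ n).re := by
    unfold fk
    rw [Complex.sub_re]
    ring
  rw [e]
  have h1 := pow_sub_le (wl_norm hb y').le (wl_norm hb y).le n
  have h2 := wl_sub hb hy' hy
  calc |(wl b y' ^ n - wl b y ^ n).re| ≤ ‖wl b y' ^ n - wl b y ^ n‖ := Complex.abs_re_le_norm _
    _ ≤ n * ‖wl b y' - wl b y‖ := h1
    _ ≤ n * (2 * b * |y' - y| / (y' * y)) := by gcongr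
    _ = _ := by rw [abs_sub_comm, mul_comm y' y]; ring

lemma fk_even {b : ℝ} (n : ℕ) (y : ℝ) : fk b n (-y) = fk b n y := by
  unfold fk wl
  have e : (((-y : ℝ) : ℂ) * I) = starRingEnd ℂ ((y : ℂ) * I) := by
    rw [map_mul, Complex.conj_ofReal, Complex.conj_I]
    push_cast
    ring
  rw [e, Pool.Agent.N831.LI.W_conj, ← map_pow, Complex.conj_re]

lemma fk_abs {b : ℝ} (n : ℕ) (y : ℝ) : fk b n |y| = fk b n y := by
  rcases le_total 0 y with h | h
  · rw [abs_of_nonneg h]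
  · rw [abs_of_nonpos h, fk_even]

/-! ### the integral -/

lemma ul_deriv {b : ℝ} (hb : 0 < b) (y : ℝ) : HasDerivAt (fun y : ℝ => wl b y) (I / (2 * b) * ul b y ^ 2) y := by
  have h0 := den_ne hb y
  have h1 : HasDerivAt (fun y : ℝ => (b : ℂ) + (y : ℂ) * I) I y := by
    have := ((hasDerivAt_id y).ofReal_comp.mul_const I).const_add (b : ℂ)
    simpa using this
  have h2 := (h1.inv h0).const_mul (-(2 * b : ℂ))
  have h3 : HasDerivAt (fun y : ℝ => 1 + -(2 * b : ℂ) * ((b : ℂ) + (y : ℂ) * I)⁻¹)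
      (-(2 * b : ℂ) * (-I / ((b : ℂ) + (y : ℂ) * I) ^ 2)) y := h2.const_add 1
  have e1 : (fun y : ℝ => wl b y) = fun y : ℝ => 1 + -(2 * b : ℂ) * ((b : ℂ) + (y : ℂ) * I)⁻¹ := by
    funext y
    rw [wl_eq hb]
    unfold ul
    rw [div_eq_mul_inv]
    ring
  rw [e1]
  convert h3 using 1
  unfold ul
  have hbc : (b : ℂ) ≠ 0 := by exact_mod_cast hb.ne'
  field_simp

lemma wl_zero {b : ℝ} (hb : 0 < b) : wl b 0 = -1 := by
  unfold wl W
  have hbc : (b : ℂ) ≠ 0 := by exact_mod_cast hb.ne'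
  simp [neg_div, div_self hbc]

lemma wl_lim {b : ℝ} (hb : 0 < b) : Tendsto (fun y : ℝ => wl b y) atTop (𝓝 1) := by
  rw [tendsto_iff_norm_sub_tendsto_zero]
  have h1 : ∀ y : ℝ, 0 < y → ‖wl b y - 1‖ ≤ 2 * b / y := by
    intro y hy
    have e : wl b y - 1 = -ul b y := by rw [wl_eq hb]; ring
    rw [e, norm_neg]
    unfold ul
    rw [norm_div]
    have e2 : ‖(2 * b : ℂ)‖ = 2 * b := by
      rw [norm_mul, Complex.norm_real, Real.norm_eq_abs, abs_of_pos hb]
      norm_num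
    rw [e2]
    apply div_le_div_of_nonneg_left (by positivity) hy
    have := Complex.abs_im_le_norm ((b : ℂ) + (y : ℂ) * I)
    simp at this
    exact (le_abs_self y).trans this
  have h2 : Tendsto (fun y : ℝ => 2 * b / y) atTop (𝓝 0) := tendsto_const_nhds.div_atTop tendsto_id
  refine squeeze_zero' (Eventually.of_forall fun y => norm_nonneg _) ?_ h2
  filter_upwards [eventually_gt_atTop (0 : ℝ)] with y hy using h1 y hy

lemma anti1 {b : ℝ} (hb : 0 < b) (m : ℕ) : ∃ H : ℝ → ℝ, (∀ y, HasDerivAt H ((ul b y * wl b y ^ m).re) y) ∧ H 0 = 0 ∧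
    Tendsto H atTop (𝓝 (Real.pi * b)) := by
  induction m with
  | zero =>
    refine ⟨fun y => 2 * b * Real.arctan (y / b), fun y => ?_, by simp, ?_⟩
    · have h1 := ((hasDerivAt_id y).div_const b).arctan.const_mul (2 * b)
      refine h1.congr_deriv ?_
      rw [pow_zero, mul_one, ul_re hb]
      simp only [id]
      field_simp
    · have h1 : Tendsto (fun y : ℝ => Real.arctan (y / b)) atTop (𝓝 (Real.pi / 2)) :=
        (Real.tendsto_arctan_atTop.mono_right nhdsWithin_le_nhds).comp (tendsto_id.atTop_div_const hb)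
      have h2 := h1.const_mul (2 * b)
      have e : 2 * b * (Real.pi / 2) = Real.pi * b := by ring
      rwa [e] at h2
  | succ m ih =>
    obtain ⟨H, h1, h2, h3⟩ := ih
    refine ⟨fun y => H y - 2 * b / (m + 1) * (wl b y ^ (m + 1)).im, fun y => ?_, ?_, ?_⟩
    · have h4 := (ul_deriv hb y).pow (m + 1)
      have h5 : HasDerivAt (fun y : ℝ => (wl b y ^ (m + 1)).im)
          ((((m + 1 : ℕ) : ℂ) * wl b y ^ (m + 1 - 1) * (I / (2 * b) * ul b y ^ 2)).im) y := by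
        have := Complex.imCLM.hasFDerivAt.comp_hasDerivAt y h4
        exact this
      have h6 := (h1 y).sub (h5.const_mul (2 * b / (m + 1)))
      refine h6.congr_deriv ?_
      have hbc : (b : ℂ) ≠ 0 := by exact_mod_cast hb.ne'
      have e1 : (((m + 1 : ℕ) : ℂ) * wl b y ^ (m + 1 - 1) * (I / (2 * b) * ul b y ^ 2)) =
          (((m + 1) / (2 * b) : ℝ) : ℂ) * (I * (ul b y ^ 2 * wl b y ^ m)) := by
        rw [Nat.add_sub_cancel]
        push_cast
        ring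
      have e2 : ul b y * wl b y ^ (m + 1) = ul b y * wl b y ^ m - ul b y ^ 2 * wl b y ^ m := by
        rw [pow_succ, wl_eq hb]
        ring
      rw [e1, e2, Complex.im_ofReal_mul, Complex.sub_re, Complex.I_mul_im]
      have hm : (m : ℝ) + 1 ≠ 0 := by positivity
      field_simp
    · show H 0 - 2 * b / (m + 1) * (wl b 0 ^ (m + 1)).im = 0
      rw [h2, wl_zero hb]
      have : (((-1 : ℂ)) ^ (m + 1)).im = 0 := by
        have e : ((-1 : ℂ)) ^ (m + 1) = (((-1 : ℝ) ^ (m + 1) : ℝ) : ℂ) := by push_cast; rfl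
        rw [e, Complex.ofReal_im]
      rw [this]
      simp
    · have h4 : Tendsto (fun y : ℝ => (wl b y ^ (m + 1)).im) atTop (𝓝 0) := by
        have := (Complex.continuous_im.tendsto _).comp ((wl_lim hb).pow (m + 1))
        rw [one_pow, Complex.one_im] at this
        exact this
      have h5 := h3.sub (h4.const_mul (2 * b / (m + 1)))
      simpa using h5

lemma anti {b : ℝ} (hb : 0 < b) (n : ℕ) : ∃ G : ℝ → ℝ, (∀ y, HasDerivAt G (fk b n y) y) ∧ G 0 = 0 ∧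
    Tendsto G atTop (𝓝 (Real.pi * (n * b))) := by
  induction n with
  | zero => exact ⟨fun _ => 0, fun y => by rw [fk_zero]; exact hasDerivAt_const _ _, rfl, by simp⟩
  | succ n ih =>
    obtain ⟨G, h1, h2, h3⟩ := ih
    obtain ⟨H, k1, k2, k3⟩ := anti1 hb n
    refine ⟨fun y => G y + H y, fun y => ?_, by show G 0 + H 0 = 0; rw [h2, k2, add_zero], ?_⟩
    · refine ((h1 y).add (k1 y)).congr_deriv ?_
      unfold fk
      rw [pow_succ]
      have e : wl b y ^ n * wl b y = wl b y ^ n - ul b y * wl b y ^ n := by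
        conv_lhs => rw [wl_eq hb y]
        rw [← wl_eq hb y]
        rw [wl_eq hb y]
        ring
      rw [e, Complex.sub_re]
      ring
    · have := h3.add k3
      convert this using 2
      push_cast
      ring

/-- the integral of the kernel -/
theorem fk_int {b : ℝ} (hb : 0 < b) (n : ℕ) : IntegrableOn (fk b n) (Set.Ioi 0) ∧
    ∫ y in Set.Ioi (0 : ℝ), fk b n y = Real.pi * (n * b) := by
  obtain ⟨G, h1, h2, h3⟩ := anti hb n
  have h4 : ContinuousWithinAt G (Set.Ici 0) 0 := (h1 0).continuousAt.continuousWithinAt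
  have h5 : ∀ y ∈ Set.Ioi (0:ℝ), HasDerivAt G (fk b n y) y := fun y _ => h1 y
  have h6 : ∀ y ∈ Set.Ioi (0:ℝ), 0 ≤ fk b n y := fun y _ => fk_nonneg hb n y
  refine ⟨integrableOn_Ioi_deriv_of_nonneg h4 h5 h6 h3, ?_⟩
  rw [integral_Ioi_of_hasDerivAt_of_nonneg h4 h5 h6 h3, h2, sub_zero]

lemma fk_cont {b : ℝ} (hb : 0 < b) (n : ℕ) : Continuous (fk b n) := by
  have h1 : Continuous (fun y : ℝ => wl b y) := continuous_iff_continuousAt.2 fun y => (ul_deriv hb y).continuousAt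
  unfold fk
  exact continuous_const.sub (Complex.continuous_re.comp (h1.pow n))

end

end Pool.Agent.U156.LZ
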