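import Pool.Agent.U156.LZ.Cnt
import Pool.Agent.U156.LZ.Kern

/-!
# Partial summation
-/

set_option autoImplicit false

open Complex Filter Topology Finset MeasureTheory

namespace Pool.Agent.U156.LZ

noncomputable section

lemma int_ind {g : ℝ → ℝ} {A B y : ℝ} (h1 : A < y) (h2 : y ≤ B) :
    ∫ t in A..B, Set.indicator (Set.Ici y) g t = ∫ t in y..B, g t := by
  rw [intervalIntegral.integral_of_le (by linarith), intervalIntegral.integral_of_le h2,
    setIntegral_indicator measurableSet_Ici]
  have e : Set.Ioc A B ∩ Set.Ici y = Set.Icc y B := by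
    ext t
    simp only [Set.mem_inter_iff, Set.mem_Ioc, Set.mem_Ici, Set.mem_Icc]
    constructor
    · rintro ⟨⟨_, a2⟩, a3⟩
      exact ⟨a3, a2⟩
    · rintro ⟨a1, a2⟩
      exact ⟨⟨by linarith, a2⟩, a1⟩
  rw [e, integral_Icc_eq_integral_Ioc]

lemma ii_ind {g : ℝ → ℝ} (hg : Continuous g) (A B y : ℝ) :
    IntervalIntegrable (Set.indicator (Set.Ici y) g) volume A B := by
  rw [intervalIntegrable_iff]
  exact (intervalIntegrable_iff.1 (hg.intervalIntegrable A B)).indicator measurableSet_Ici

/-- partial summation with a finite set of points -/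
theorem abel {f g : ℝ → ℝ} (hf : ∀ y, HasDerivAt f (g y) y) (hg : Continuous g) {A B : ℝ} (hAB : A ≤ B)
    (S : Finset ℂ) (hS : ∀ z ∈ S, A < z.im ∧ z.im ≤ B) (M : ℂ → ℝ) {L E D F : ℝ}
    (hN : ∀ t, A ≤ t → t ≤ B → |∑ z ∈ S.filter (fun z => z.im ≤ t), M z - (t - A) * L| ≤ E)
    (hD : ∀ t, A ≤ t → t ≤ B → |g t| ≤ D) (hF : |f B| ≤ F) (hD0 : 0 ≤ D) :
    |∑ z ∈ S, M z * f z.im - L * ∫ t in A..B, f t| ≤ E * F + D * E * (B - A) := by
  classical
  have hE0 : 0 ≤ E := (abs_nonneg _).trans (hN A le_rfl hAB)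
  have hfc : Continuous f := continuous_iff_continuousAt.2 fun y => (hf y).continuousAt
  -- each point
  have h1 : ∀ z ∈ S, f z.im = f B - ∫ t in A..B, Set.indicator (Set.Ici z.im) g t := by
    intro z hz
    obtain ⟨a1, a2⟩ := hS z hz
    rw [int_ind a1 a2, intervalIntegral.integral_eq_sub_of_hasDerivAt (fun y _ => hf y) (hg.intervalIntegrable _ _)]
    ring
  have h2 : ∑ z ∈ S, M z * f z.im = f B * ∑ z ∈ S, M z -
      ∫ t in A..B, ∑ z ∈ S, M z * Set.indicator (Set.Ici z.im) g t := by
    rw [intervalIntegral.integral_finsetSum (fun z _ => (ii_ind hg A B z.im).const_mul (M z)), Finset.mul_sum,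
      ← Finset.sum_sub_distrib]
    refine Finset.sum_congr rfl fun z hz => ?_
    rw [h1 z hz, intervalIntegral.integral_const_mul]
    ring
  have h3 : ∀ t, ∑ z ∈ S, M z * Set.indicator (Set.Ici z.im) g t = g t * ∑ z ∈ S.filter (fun z => z.im ≤ t), M z := by
    intro t
    rw [Finset.sum_filter, Finset.mul_sum]
    refine Finset.sum_congr rfl fun z _ => ?_
    by_cases h : z.im ≤ t
    · rw [if_pos h, Set.indicator_of_mem (show t ∈ Set.Ici z.im from h)]
      ring
    · rw [if_neg h, Set.indicator_of_notMem (show t ∉ Set.Ici z.im from h)]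
      ring
  -- the model
  have h4 : ∫ t in A..B, f t = f B * (B - A) - ∫ t in A..B, g t * (t - A) := by
    have k1 : ∀ y ∈ Set.uIcc A B, HasDerivAt (fun y => f y * (y - A)) (g y * (y - A) + f y * 1) y := fun y _ =>
      (hf y).mul ((hasDerivAt_id y).sub_const A)
    have k2 := intervalIntegral.integral_eq_sub_of_hasDerivAt k1 (by
      apply Continuous.intervalIntegrable
      fun_prop)
    rw [intervalIntegral.integral_add (by apply Continuous.intervalIntegrable; fun_prop)
      (by apply Continuous.intervalIntegrable; fun_prop)] at k2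
    simp only [mul_one, sub_self, mul_zero, sub_zero] at k2
    linarith
  have hii : IntervalIntegrable (fun t => ∑ z ∈ S, M z * Set.indicator (Set.Ici z.im) g t) volume A B := by
    have h := IntervalIntegrable.sum S (f := fun z t => M z * Set.indicator (Set.Ici z.im) g t)
      (μ := volume) (a := A) (b := B) (fun z _ => (ii_ind hg A B z.im).const_mul (M z))
    have e : (∑ z ∈ S, fun t => M z * Set.indicator (Set.Ici z.im) g t) =
        fun t => ∑ z ∈ S, M z * Set.indicator (Set.Ici z.im) g t := by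
      funext t
      rw [Finset.sum_apply]
    rw [← e]
    exact h
  have h5 : ∑ z ∈ S, M z * f z.im - L * ∫ t in A..B, f t = f B * (∑ z ∈ S, M z - (B - A) * L) -
      ∫ t in A..B, g t * (∑ z ∈ S.filter (fun z => z.im ≤ t), M z - (t - A) * L) := by
    have k3 : ∫ t in A..B, g t * (∑ z ∈ S.filter (fun z => z.im ≤ t), M z - (t - A) * L) =
        (∫ t in A..B, ∑ z ∈ S, M z * Set.indicator (Set.Ici z.im) g t) - L * ∫ t in A..B, g t * (t - A) := by
      rw [← intervalIntegral.integral_const_mul, ← intervalIntegral.integral_sub hii (by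
        apply Continuous.intervalIntegrable; fun_prop)]
      refine intervalIntegral.integral_congr fun t _ => ?_
      show _ = (∑ z ∈ S, M z * Set.indicator (Set.Ici z.im) g t) - L * (g t * (t - A))
      rw [h3]
      ring
    rw [k3, h2, h4]
    ring
  rw [h5]
  have h6 : |∑ z ∈ S, M z - (B - A) * L| ≤ E := by
    have := hN B hAB le_rfl
    rwa [Finset.filter_true_of_mem fun z hz => (hS z hz).2] at this
  have h7 : ‖∫ t in A..B, g t * (∑ z ∈ S.filter (fun z => z.im ≤ t), M z - (t - A) * L)‖ ≤ D * E * |B - A| := by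
    refine intervalIntegral.norm_integral_le_of_norm_le_const fun t ht => ?_
    rw [Set.uIoc_of_le hAB] at ht
    rw [Real.norm_eq_abs, abs_mul]
    exact mul_le_mul (hD t ht.1.le ht.2) (hN t ht.1.le ht.2) (abs_nonneg _) hD0
  rw [Real.norm_eq_abs, abs_of_nonneg (show 0 ≤ B - A by linarith)] at h7
  have h8 : |f B * (∑ z ∈ S, M z - (B - A) * L)| ≤ E * F := by
    rw [abs_mul, mul_comm E F]
    exact mul_le_mul hF h6 (abs_nonneg _) ((abs_nonneg _).trans hF)
  refine (abs_sub _ _).trans ?_
  linarith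

/-! ### the derivative of the kernel -/

/-- the derivative of the kernel -/
def gk (b : ℝ) (n : ℕ) (y : ℝ) : ℝ := -((n : ℂ) * wl b y ^ (n - 1) * (I / (2 * b) * ul b y ^ 2)).re

lemma fk_deriv {b : ℝ} (hb : 0 < b) (n : ℕ) (y : ℝ) : HasDerivAt (fk b n) (gk b n y) y := by
  have h4 := (ul_deriv hb y).pow n
  have h5 : HasDerivAt (fun y : ℝ => (wl b y ^ n).re)
      (((n : ℂ) * wl b y ^ (n - 1) * (I / (2 * b) * ul b y ^ 2)).re) y := by
    have := Complex.reCLM.hasFDerivAt.comp_hasDerivAt y h4
    exact this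
  have h6 := h5.const_sub 1
  exact h6

lemma gk_abs {b : ℝ} (hb : 0 < b) (n : ℕ) (y : ℝ) : |gk b n y| ≤ 2 * (n * b) / (b ^ 2 + y ^ 2) := by
  unfold gk
  rw [abs_neg]
  refine (Complex.abs_re_le_norm _).trans ?_
  rw [norm_mul, norm_mul, norm_mul, norm_pow, norm_pow, wl_norm hb, one_pow, mul_one, Complex.norm_natCast,
    norm_div, Complex.norm_I, ul_norm_sq hb]
  have e : ‖(2 * b : ℂ)‖ = 2 * b := by
    rw [norm_mul, Complex.norm_real, Real.norm_eq_abs, abs_of_pos hb]
    norm_num
  rw [e]
  apply le_of_eq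
  field_simp
  ring

lemma gk_cont {b : ℝ} (hb : 0 < b) (n : ℕ) : Continuous (gk b n) := by
  have h1 : Continuous (fun y : ℝ => wl b y) := continuous_iff_continuousAt.2 fun y => (ul_deriv hb y).continuousAt
  have h2 : Continuous (fun y : ℝ => ul b y) := by
    have e : (fun y : ℝ => ul b y) = fun y => 1 - wl b y := by
      funext y
      rw [wl_eq hb]
      ring
    rw [e]
    exact continuous_const.sub h1
  unfold gk
  fun_prop

end

end Pool.Agent.U156.LZ
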