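import Pool.Agent.U156.LZ.Abel

/-!
# The sum of the kernel over the zeros
-/

set_option autoImplicit false

open Complex Filter Topology Finset MeasureTheory

namespace Pool.Agent.U156.LZ

noncomputable section

lemma ind_pos {F : ℂ → ℝ} {z : ℂ} (h : 0 < z.im) : Set.indicator {z : ℂ | 0 < z.im} F z = F z :=
  Set.indicator_of_mem (show z ∈ {z : ℂ | 0 < z.im} from h) F

lemma ind_neg {F : ℂ → ℝ} {z : ℂ} (h : ¬ 0 < z.im) : Set.indicator {z : ℂ | 0 < z.im} F z = 0 :=
  Set.indicator_of_notMem (show z ∉ {z : ℂ | 0 < z.im} from h) F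

/-- the mass of the kernel away from `[A, B]` -/
lemma mass {b : ℝ} (hb : 0 < b) (n : ℕ) {A B : ℝ} (hA : 0 < A) (hAB : A ≤ B) :
    ∫ t in A..B, fk b n t ≤ Real.pi * (n * b) ∧
    Real.pi * (n * b) - 2 * A - 2 * (n * b) ^ 2 / B ≤ ∫ t in A..B, fk b n t := by
  obtain ⟨G, h1, h2, h3⟩ := anti hb n
  have hB : 0 < B := by linarith
  rw [intervalIntegral.integral_eq_sub_of_hasDerivAt (fun y _ => h1 y) ((fk_cont hb n).intervalIntegrable _ _)]
  have hmono : Monotone G := monotone_of_deriv_nonneg (fun y => (h1 y).differentiableAt) fun y => by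
    rw [(h1 y).deriv]
    exact fk_nonneg hb n y
  have hGA : 0 ≤ G A := by rw [← h2]; exact hmono hA.le
  have hGB : G B ≤ Real.pi * (n * b) := by
    refine ge_of_tendsto h3 ?_
    filter_upwards [eventually_ge_atTop B] with y hy using hmono hy
  have hGA2 : G A ≤ 2 * A := by
    have hd : ∀ y, HasDerivAt (fun y => G y - 2 * y) (fk b n y - 2 * 1) y := fun y =>
      (h1 y).sub ((hasDerivAt_id y).const_mul 2)
    have h4 : Antitone (fun y => G y - 2 * y) := antitone_of_deriv_nonpos (fun y => (hd y).differentiableAt) fun y => by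
      rw [(hd y).deriv]
      have := fk_le_two hb n y
      linarith
    have h5 := h4 hA.le
    simp only [h2] at h5
    linarith
  have hGB2 : Real.pi * (n * b) - 2 * (n * b) ^ 2 / B ≤ G B := by
    -- `G y + 2 X^2 / y` is antitone
    have hd : ∀ y : ℝ, 0 < y → HasDerivAt (fun y => G y + 2 * (n * b) ^ 2 * y⁻¹)
        (fk b n y + 2 * (n * b) ^ 2 * (-(y ^ 2)⁻¹)) y := fun y hy =>
      (h1 y).add ((hasDerivAt_inv hy.ne').const_mul _)
    have h4 : AntitoneOn (fun y => G y + 2 * (n * b) ^ 2 * y⁻¹) (Set.Ioi 0) := by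
      refine antitoneOn_of_deriv_nonpos (convex_Ioi 0) (fun y hy => (hd y hy).continuousAt.continuousWithinAt)
        (fun y hy => ?_) fun y hy => ?_
      · rw [interior_Ioi] at hy
        exact (hd y hy).differentiableAt.differentiableWithinAt
      · rw [interior_Ioi] at hy
        rw [(hd y hy).deriv]
        have h5 := fk_le' hb n hy
        rw [div_eq_mul_inv] at h5
        linarith
    have h6 : Tendsto (fun y => G y + 2 * (n * b) ^ 2 * y⁻¹) atTop (𝓝 (Real.pi * (n * b) + 2 * (n * b) ^ 2 * 0)) :=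
      h3.add (tendsto_inv_atTop_zero.const_mul _)
    rw [mul_zero, add_zero] at h6
    have h7 : Real.pi * (n * b) ≤ G B + 2 * (n * b) ^ 2 * B⁻¹ := by
      refine le_of_tendsto h6 ?_
      filter_upwards [eventually_ge_atTop B] with y hy
      exact h4 (show B ∈ Set.Ioi (0:ℝ) from hB) (show y ∈ Set.Ioi (0:ℝ) from hB.trans_le hy) hy
    rw [div_eq_mul_inv]
    linarith
  constructor <;> linarith

/-- sums over the upper half plane -/
theorem kup : ∃ C0 : ℝ, 0 < C0 ∧ ∀ δ : ℝ, 0 < δ → δ ≤ 1 → ∃ C3 : ℝ, 0 < C3 ∧ ∀ b : ℝ, 0 < b → ∀ n : ℕ, ∀ X : ℝ,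
    X = n * b → 10 ≤ δ * X → 1 / δ ≤ X →
    (∀ S : Finset ℂ, (∀ z ∈ S, 0 < z.im) →
      ∑ z ∈ S, Mz z * fk b n z.im ≤ (1 / 2 + C0 * δ) * (X * Real.log X) + C3 * X) ∧
    (∃ S : Finset ℂ, (∀ z ∈ S, 0 < z.im) ∧
      (1 / 2 - C0 * δ) * (X * Real.log X) - C3 * X ≤ ∑ z ∈ S, Mz z * fk b n z.im) := by
  classical
  obtain ⟨C1, hC1, h1⟩ := tot
  obtain ⟨C2, hC2, h2⟩ := tail
  refine ⟨2 * C1 + 4 * C2 + 4, by positivity, fun δ hδ hδ1 => ?_⟩
  obtain ⟨k, hk⟩ := pow_unbounded_of_one_lt (1 / δ ^ 2) (show (1 : ℝ) < 2 by norm_num)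
  obtain ⟨C, hC, h3⟩ := chain k
  refine ⟨2 * C / δ + 2 * C / δ ^ 4 + |Real.log δ|, by positivity, fun b hb n X hX hX1 hX2 => ?_⟩
  have hpi := Real.pi_gt_three
  have hX0 : 0 < X := by
    by_contra h
    push Not at h
    nlinarith
  set A : ℝ := δ * X with hA
  set B : ℝ := X / δ with hB
  have hA0 : 0 < A := by linarith
  have hAX : A ≤ X := by rw [hA]; nlinarith
  have hXB : X ≤ B := by rw [hB, le_div_iff₀ hδ]; nlinarith
  have hAB : A ≤ B := by linarith
  have hB0 : 0 < B := by linarith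
  have hB10 : 10 ≤ B := by linarith
  have hBk : B ≤ 2 ^ k * A := by
    have e : B = 1 / δ ^ 2 * A := by rw [hA, hB]; field_simp
    rw [e]
    gcongr
  have hlX : 0 < Real.log X := Real.log_pos (by linarith)
  have hlA : Real.log A = Real.log δ + Real.log X := by rw [hA, Real.log_mul hδ.ne' hX0.ne']
  have hlA0 : 0 < Real.log A := Real.log_pos (by linarith)
  have hlAX : Real.log A ≤ Real.log X := Real.log_le_log hA0 hAX
  have hlB : Real.log B ≤ 2 * Real.log X := by
    rw [hB, Real.log_div hX0.ne' hδ.ne']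
    have := Real.log_le_log (by positivity) hX2
    rw [one_div, Real.log_inv] at this
    linarith
  obtain ⟨L, hL⟩ : ∃ L : ℝ, L = Real.log A / (2 * Real.pi) := ⟨_, rfl⟩
  have hL0 : 0 < L := by rw [hL]; positivity
  have hLX : L ≤ Real.log X := by
    rw [hL, div_le_iff₀ (by positivity)]
    nlinarith
  have hLpi : L * (Real.pi * X) = X * Real.log A / 2 := by rw [hL]; field_simp
  obtain ⟨S1, hS1, hS1N⟩ := NN_Mz B (show 1 ≤ A by linarith)
  have hcount : ∀ t, A ≤ t → t ≤ B → |∑ z ∈ S1.filter (fun z => z.im ≤ t), Mz z - (t - A) * L| ≤ C * B := by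
    intro t ht1 ht2
    obtain ⟨P, hP1, hP2⟩ := NN_Mz t (show 1 ≤ A by linarith)
    have e : S1.filter (fun z => z.im ≤ t) = P := by
      ext z
      rw [Finset.mem_filter, hS1, hP1]
      constructor
      · rintro ⟨⟨a1, a2, a3⟩, a4⟩
        exact ⟨a1, a2, a4⟩
      · rintro ⟨a1, a2, a3⟩
        exact ⟨⟨a1, a2, a3.trans ht2⟩, a3⟩
    rw [e, ← hP2]
    have h4 := h3 A hX1 t ht1 (ht2.trans hBk)
    have e2 : (t - A) * Real.log A / (2 * Real.pi) = (t - A) * L := by rw [hL]; ring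
    rw [e2] at h4
    unfold Nr at h4
    refine h4.trans ?_
    gcongr
  have hD : ∀ t, A ≤ t → t ≤ B → |gk b n t| ≤ 2 * X / A ^ 2 := by
    intro t ht1 _
    refine (gk_abs hb n t).trans ?_
    rw [← hX]
    apply div_le_div_of_nonneg_left (by positivity) (by positivity)
    nlinarith
  have hmid := abel (fk_deriv hb n) (gk_cont hb n) hAB S1 (fun z hz => ((hS1 z).1 hz).2) Mz hcount hD
    (F := 2) (by rw [abs_of_nonneg (fk_nonneg hb n B)]; exact fk_le_two hb n B) (by positivity)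
  have hE : C * B * 2 + 2 * X / A ^ 2 * (C * B) * (B - A) ≤ (2 * C / δ + 2 * C / δ ^ 4) * X := by
    have e1 : C * B * 2 = 2 * C / δ * X := by rw [hB]; ring
    have e2 : 2 * X / A ^ 2 * (C * B) * (B - A) ≤ 2 * X / A ^ 2 * (C * B) * B := by
      gcongr
      linarith
    have e3 : 2 * X / A ^ 2 * (C * B) * B = 2 * C / δ ^ 4 * X := by
      rw [hA, hB]
      field_simp
    rw [e3] at e2
    linarith
  have hmid2 := abs_le.1 (hmid.trans hE)
  obtain ⟨m1, m2⟩ := mass hb n hA0 hAB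
  rw [← hX] at m1 m2
  have e4 : 2 * X ^ 2 / B = 2 * (δ * X) := by rw [hB]; field_simp
  rw [e4] at m2
  have u1 : L * ∫ t in A..B, fk b n t ≤ X * Real.log X / 2 := by
    calc L * ∫ t in A..B, fk b n t ≤ L * (Real.pi * X) := by gcongr
      _ = X * Real.log A / 2 := hLpi
      _ ≤ _ := by gcongr
  have u2 : X * Real.log X / 2 - |Real.log δ| * X - 4 * δ * (X * Real.log X) ≤ L * ∫ t in A..B, fk b n t := by
    have v1 : L * (Real.pi * X - 2 * A - 2 * (δ * X)) ≤ L * ∫ t in A..B, fk b n t := by gcongr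
    have v2 : L * (Real.pi * X - 2 * A - 2 * (δ * X)) = X * Real.log A / 2 - 4 * δ * X * L := by
      rw [← hLpi, hA]; ring
    have v3 : 4 * δ * X * L ≤ 4 * δ * X * Real.log X := by gcongr
    have v4 := neg_abs_le (Real.log δ)
    rw [v2, hlA] at v1
    have v5 : -(|Real.log δ| * X) ≤ X * Real.log δ / 2 := by
      have : 0 ≤ |Real.log δ| := abs_nonneg _
      nlinarith
    linarith
  have hXl : 0 < X * Real.log X := by positivity
  constructor
  · intro S hS
    have w0 : ∑ z ∈ S, Mz z * fk b n z.im = ∑ z ∈ S.filter (fun z => Mz z ≠ 0), Mz z * fk b n z.im := by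
      refine (Finset.sum_filter_of_ne fun z _ hz => ?_).symm
      intro h0
      rw [h0, zero_mul] at hz
      exact hz rfl
    set S' := S.filter (fun z => Mz z ≠ 0) with hS'
    rw [w0, ← Finset.sum_filter_add_sum_filter_not S' (fun z => z.im ≤ A),
      ← Finset.sum_filter_add_sum_filter_not (S'.filter (fun z => ¬ z.im ≤ A)) (fun z => z.im ≤ B)]
    have w1 : ∑ z ∈ S'.filter (fun z => z.im ≤ A), Mz z * fk b n z.im ≤ 2 * C1 * δ * (X * Real.log X) := by
      calc ∑ z ∈ S'.filter (fun z => z.im ≤ A), Mz z * fk b n z.im ≤ ∑ z ∈ S'.filter (fun z => z.im ≤ A), Mz z * 2 :=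
            Finset.sum_le_sum fun z _ => mul_le_mul_of_nonneg_left (fk_le_two hb n _) (Mz_nn z)
        _ = (∑ z ∈ S'.filter (fun z => z.im ≤ A), Mz z) * 2 := by rw [Finset.sum_mul]
        _ ≤ (C1 * A * Real.log A) * 2 := by
            gcongr
            refine h1 A hX1 _ fun z hz => ?_
            rw [Finset.mem_filter, hS', Finset.mem_filter] at hz
            exact ⟨hS z hz.1.1, hz.2⟩
        _ ≤ (C1 * A * Real.log X) * 2 := by gcongr
        _ = _ := by rw [hA]; ring
    have w2 : ∑ z ∈ (S'.filter (fun z => ¬ z.im ≤ A)).filter (fun z => z.im ≤ B), Mz z * fk b n z.im ≤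
        ∑ z ∈ S1, Mz z * fk b n z.im := by
      refine Finset.sum_le_sum_of_subset_of_nonneg (fun z hz => ?_) fun z _ _ => mul_nonneg (Mz_nn z) (fk_nonneg hb n _)
      rw [Finset.mem_filter, Finset.mem_filter, hS', Finset.mem_filter, not_le] at hz
      exact (hS1 z).2 ⟨hz.1.1.2, hz.1.2, hz.2⟩
    have w3 : ∑ z ∈ (S'.filter (fun z => ¬ z.im ≤ A)).filter (fun z => ¬ z.im ≤ B), Mz z * fk b n z.im ≤
        4 * C2 * δ * (X * Real.log X) := by
      calc ∑ z ∈ (S'.filter (fun z => ¬ z.im ≤ A)).filter (fun z => ¬ z.im ≤ B), Mz z * fk b n z.im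
          ≤ ∑ z ∈ (S'.filter (fun z => ¬ z.im ≤ A)).filter (fun z => ¬ z.im ≤ B), 2 * X ^ 2 * (Mz z / z.im ^ 2) := by
            refine Finset.sum_le_sum fun z hz => ?_
            rw [Finset.mem_filter, not_le] at hz
            have h5 : 0 < z.im := hB0.trans hz.2
            have h6 := fk_le' hb n h5
            rw [← hX] at h6
            calc Mz z * fk b n z.im ≤ Mz z * (2 * X ^ 2 / z.im ^ 2) := mul_le_mul_of_nonneg_left h6 (Mz_nn z)
              _ = _ := by ring
        _ = 2 * X ^ 2 * ∑ z ∈ (S'.filter (fun z => ¬ z.im ≤ A)).filter (fun z => ¬ z.im ≤ B), Mz z / z.im ^ 2 := by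
            rw [Finset.mul_sum]
        _ ≤ 2 * X ^ 2 * (C2 * Real.log B / B) := by
            gcongr
            refine h2 B hB10 _ fun z hz => ?_
            rw [Finset.mem_filter, not_le] at hz
            exact hz.2
        _ = 2 * C2 * δ * X * Real.log B := by rw [hB]; field_simp
        _ ≤ 2 * C2 * δ * X * (2 * Real.log X) := by gcongr
        _ = _ := by ring
    have hld : 0 ≤ |Real.log δ| * X := by positivity
    have e5 : (1 / 2 + (2 * C1 + 4 * C2 + 4) * δ) * (X * Real.log X) + (2 * C / δ + 2 * C / δ ^ 4 + |Real.log δ|) * X =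
        X * Real.log X / 2 + 2 * C1 * δ * (X * Real.log X) + 4 * C2 * δ * (X * Real.log X) + 4 * δ * (X * Real.log X) +
        (2 * C / δ + 2 * C / δ ^ 4) * X + |Real.log δ| * X := by ring
    rw [e5]
    have h9 : 0 ≤ 4 * δ * (X * Real.log X) := by positivity
    linarith [hmid2.2]
  · refine ⟨S1, fun z hz => hA0.trans ((hS1 z).1 hz).2.1, ?_⟩
    have e5 : (1 / 2 - (2 * C1 + 4 * C2 + 4) * δ) * (X * Real.log X) - (2 * C / δ + 2 * C / δ ^ 4 + |Real.log δ|) * X =
        X * Real.log X / 2 - 2 * C1 * δ * (X * Real.log X) - 4 * C2 * δ * (X * Real.log X) - 4 * δ * (X * Real.log X) -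
        (2 * C / δ + 2 * C / δ ^ 4) * X - |Real.log δ| * X := by ring
    rw [e5]
    have h9 : 0 ≤ 2 * C1 * δ * (X * Real.log X) := by positivity
    have h10 : 0 ≤ 4 * C2 * δ * (X * Real.log X) := by positivity
    linarith [hmid2.1]

lemma fk_summ {b : ℝ} (hb : 0 < b) (n : ℕ) : Summable (fun z => Mz z * fk b n z.im) := by
  have h : ∀ z : ℂ, |z.re| < 1 / 2 → |fk b n z.im| ≤ (8 + 8 * (n * b) ^ 2) / (1 + |z.im|) ^ 2 := by
    intro z _
    rw [abs_of_nonneg (fk_nonneg hb n _), le_div_iff₀ (by positivity)]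
    have hy := abs_nonneg z.im
    rcases le_total |z.im| 1 with h1 | h1
    · have h2 := fk_le_two hb n z.im
      have h3 : (1 + |z.im|) ^ 2 ≤ 4 := by nlinarith
      have h4 : fk b n z.im * (1 + |z.im|) ^ 2 ≤ 2 * 4 := by
        apply mul_le_mul h2 h3 (by positivity) (by norm_num)
      have h5 : 0 ≤ 8 * (n * b) ^ 2 := by positivity
      linarith
    · have h2 := fk_le' hb n (show 0 < |z.im| by linarith)
      rw [fk_abs] at h2
      rw [le_div_iff₀ (by positivity)] at h2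
      have h3 : (1 + |z.im|) ^ 2 ≤ 4 * |z.im| ^ 2 := by nlinarith
      have h4 : fk b n z.im * (1 + |z.im|) ^ 2 ≤ fk b n z.im * (4 * |z.im| ^ 2) := by
        gcongr
        exact fk_nonneg hb n _
      linarith
  exact Pool.Agent.N831.LI.summ_of zsz (by positivity) h

/-- the sum over all zeros is twice the sum over the upper half plane -/
lemma tsum_up {g : ℝ → ℝ} (hg : ∀ y, g (-y) = g y) (hs : Summable (fun z => Mz z * g z.im)) :
    ∑' z : ℂ, Mz z * g z.im = 2 * ∑' z : ℂ, Set.indicator {z : ℂ | 0 < z.im} (fun z => Mz z * g z.im) z := by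
  have h1 : ∀ z : ℂ, Mz z * g z.im = Set.indicator {z : ℂ | 0 < z.im} (fun z => Mz z * g z.im) z +
      Set.indicator {z : ℂ | 0 < z.im} (fun z => Mz z * g z.im) (starRingEnd ℂ z) := by
    intro z
    rcases lt_trichotomy z.im 0 with h | h | h
    · rw [ind_neg (not_lt.2 h.le), ind_pos (by rw [Complex.conj_im]; linarith), Mz_conj, Complex.conj_im, hg, zero_add]
    · have h0 : Mz z = 0 := by
        by_contra h1
        exact Mz_im h1 h
      have h5 : ¬ 0 < (starRingEnd ℂ z).im := by rw [Complex.conj_im]; linarith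
      rw [ind_neg (not_lt.2 h.le), ind_neg h5, h0, zero_mul, zero_add]
    · have h5 : ¬ 0 < (starRingEnd ℂ z).im := by rw [Complex.conj_im]; linarith
      rw [ind_pos h, ind_neg h5, add_zero]
  have h2 : Summable (Set.indicator {z : ℂ | 0 < z.im} (fun z => Mz z * g z.im)) := hs.indicator _
  have e := (Equiv.mk (fun z : ℂ => starRingEnd ℂ z) (fun z : ℂ => starRingEnd ℂ z) (fun z => Complex.conj_conj z)
      (fun z => Complex.conj_conj z))
  have h3 : Summable (fun z : ℂ => Set.indicator {z : ℂ | 0 < z.im} (fun z => Mz z * g z.im) (starRingEnd ℂ z)) :=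
    (Equiv.mk (fun z : ℂ => starRingEnd ℂ z) (fun z : ℂ => starRingEnd ℂ z) (fun z => Complex.conj_conj z)
      (fun z => Complex.conj_conj z)).summable_iff.2 h2
  have h4 : ∑' z : ℂ, Set.indicator {z : ℂ | 0 < z.im} (fun z => Mz z * g z.im) (starRingEnd ℂ z) =
      ∑' z : ℂ, Set.indicator {z : ℂ | 0 < z.im} (fun z => Mz z * g z.im) z :=
    (Equiv.mk (fun z : ℂ => starRingEnd ℂ z) (fun z : ℂ => starRingEnd ℂ z) (fun z => Complex.conj_conj z)
      (fun z => Complex.conj_conj z)).tsum_eq (Set.indicator {z : ℂ | 0 < z.im} (fun z => Mz z * g z.im))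
  rw [tsum_congr h1, h2.tsum_add h3, h4]
  ring

/-- **the asymptotic formula for the sum of the kernel** -/
theorem ksum {ε : ℝ} (hε : 0 < ε) : ∃ X1 : ℝ, 10 ≤ X1 ∧ ∀ b : ℝ, 0 < b → ∀ n : ℕ, X1 ≤ n * b →
    |∑' z : ℂ, Mz z * fk b n z.im - n * b * Real.log (n * b)| ≤ ε * (n * b * Real.log (n * b)) := by
  classical
  obtain ⟨C0, hC0, h⟩ := kup
  obtain ⟨δ, hδ⟩ : ∃ δ : ℝ, δ = min 1 (ε / (4 * C0)) := ⟨_, rfl⟩
  have hδ0 : 0 < δ := by rw [hδ]; exact lt_min one_pos (by positivity)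
  have hδ1 : δ ≤ 1 := by rw [hδ]; exact min_le_left _ _
  have hδ2 : C0 * δ ≤ ε / 4 := by
    have : δ ≤ ε / (4 * C0) := by rw [hδ]; exact min_le_right _ _
    rw [le_div_iff₀ (by positivity)] at this
    linarith
  obtain ⟨C3, hC3, h1⟩ := h δ hδ0 hδ1
  refine ⟨max (max 10 (10 / δ)) (Real.exp (4 * C3 / ε)), (le_max_left _ _).trans (le_max_left _ _), fun b hb n hX => ?_⟩
  obtain ⟨X, hX'⟩ : ∃ X : ℝ, X = n * b := ⟨_, rfl⟩
  rw [← hX'] at hX ⊢
  have hX10 : 10 ≤ X := (le_max_left _ _).trans ((le_max_left _ _).trans hX)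
  have hXδ : 10 / δ ≤ X := (le_max_right _ _).trans ((le_max_left _ _).trans hX)
  have hXe : Real.exp (4 * C3 / ε) ≤ X := (le_max_right _ _).trans hX
  have hX0 : 0 < X := by linarith
  have hl : 4 * C3 / ε ≤ Real.log X := (Real.le_log_iff_exp_le hX0).2 hXe
  have hl2 : C3 * X ≤ ε / 4 * (X * Real.log X) := by
    rw [div_le_iff₀ hε] at hl
    nlinarith
  have hl0 : 0 < X * Real.log X := by
    have : 0 < Real.log X := Real.log_pos (by linarith)
    positivity
  obtain ⟨u1, S, hS, u2⟩ := h1 b hb n X hX' (by rw [div_le_iff₀ hδ0] at hXδ; linarith) (by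
    refine le_trans ?_ hXδ
    gcongr
    norm_num)
  have hs := fk_summ hb n
  have hi := hs.indicator {z : ℂ | 0 < z.im}
  have hnn : ∀ z, 0 ≤ Set.indicator {z : ℂ | 0 < z.im} (fun z => Mz z * fk b n z.im) z := fun z =>
    Set.indicator_nonneg (fun z _ => mul_nonneg (Mz_nn z) (fk_nonneg hb n _)) z
  rw [tsum_up (g := fk b n) (fk_even n) hs]
  have hup : ∑' z : ℂ, Set.indicator {z : ℂ | 0 < z.im} (fun z => Mz z * fk b n z.im) z ≤
      (1 / 2 + C0 * δ) * (X * Real.log X) + C3 * X := by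
    refine hi.tsum_le_of_sum_le fun T => ?_
    rw [← Finset.sum_filter_add_sum_filter_not T (fun z => 0 < z.im)]
    have a1 : ∑ z ∈ T.filter (fun z => ¬ 0 < z.im), Set.indicator {z : ℂ | 0 < z.im} (fun z => Mz z * fk b n z.im) z = 0 :=
      Finset.sum_eq_zero fun z hz => ind_neg (Finset.mem_filter.1 hz).2
    have a2 : ∑ z ∈ T.filter (fun z => 0 < z.im), Set.indicator {z : ℂ | 0 < z.im} (fun z => Mz z * fk b n z.im) z =
        ∑ z ∈ T.filter (fun z => 0 < z.im), Mz z * fk b n z.im :=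
      Finset.sum_congr rfl fun z hz => ind_pos (Finset.mem_filter.1 hz).2
    rw [a1, a2, add_zero]
    exact u1 _ fun z hz => (Finset.mem_filter.1 hz).2
  have hlo : (1 / 2 - C0 * δ) * (X * Real.log X) - C3 * X ≤
      ∑' z : ℂ, Set.indicator {z : ℂ | 0 < z.im} (fun z => Mz z * fk b n z.im) z := by
    refine u2.trans ?_
    have a2 : ∑ z ∈ S, Mz z * fk b n z.im = ∑ z ∈ S, Set.indicator {z : ℂ | 0 < z.im} (fun z => Mz z * fk b n z.im) z :=
      Finset.sum_congr rfl fun z hz => (ind_pos (F := fun z => Mz z * fk b n z.im) (hS z hz)).symm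
    rw [a2]
    exact hi.sum_le_tsum S fun z _ => hnn z
  have h9 : C0 * δ * (X * Real.log X) ≤ ε / 4 * (X * Real.log X) := by gcongr
  rw [abs_le]
  constructor <;> linarith

end

end Pool.Agent.U156.LZ
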