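import Pool.Agent.U156.LZ.Asym

/-!
# Comparison of the terms with the kernel on the line
-/

set_option autoImplicit false

open Complex Filter Topology Finset MeasureTheory

namespace Pool.Agent.U156.LZ

open Pool.Agent.N831.LI (W hh gg W_ne abs_log_norm_W gg_nonneg cosh_sub_one_le qq neg_small li li_symm cnt2 Dn)

noncomputable section

/-- the unit part of `W` -/
def vz (b : ℝ) (z : ℂ) : ℂ := W b z / (‖W b z‖ : ℂ)

lemma vz_norm {b : ℝ} (hb : 1 / 2 < b) {z : ℂ} (hz : |z.re| < 1 / 2) : ‖vz b z‖ = 1 := by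
  have h0 : 0 < ‖W b z‖ := norm_pos_iff.2 (W_ne hb hz)
  unfold vz
  rw [norm_div, Complex.norm_real, Real.norm_eq_abs, abs_of_pos h0, div_self h0.ne']

lemma hh_cmp {b : ℝ} (hb : 1 / 2 < b) {z : ℂ} (hz : |z.re| < 1 / 2) (n : ℕ) :
    |hh b n z - (1 - (vz b z ^ n).re)| ≤
      (n * (|z.re| * gg b z.im)) ^ 2 / 2 * Real.exp (n * (|z.re| * gg b z.im)) := by
  have h0 : 0 < ‖W b z‖ := norm_pos_iff.2 (W_ne hb hz)
  have hv := vz_norm hb hz
  have hW : W b z = (‖W b z‖ : ℂ) * vz b z := by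
    unfold vz
    rw [mul_div_cancel₀]
    exact_mod_cast h0.ne'
  have hr : ((‖W b z‖ : ℝ) : ℂ) ≠ 0 := by exact_mod_cast h0.ne'
  have hinv : (W b z)⁻¹ = ((‖W b z‖⁻¹ : ℝ) : ℂ) * starRingEnd ℂ (vz b z) := by
    conv_lhs => rw [hW]
    rw [mul_inv, Complex.inv_def (vz b z), Complex.normSq_eq_norm_sq, hv]
    push_cast
    simp
  set ℓ := Real.log ‖W b z‖ with hℓ
  have hl := abs_log_norm_W hb hz
  rw [← hℓ] at hl
  have e1 : (W b z ^ n).re = Real.exp (n * ℓ) * (vz b z ^ n).re := by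
    rw [hW, mul_pow, ← Complex.ofReal_pow, Complex.re_ofReal_mul, Real.exp_nat_mul, hℓ, Real.exp_log h0]
  have e2 : ((W b z)⁻¹ ^ n).re = Real.exp (-(n * ℓ)) * (vz b z ^ n).re := by
    rw [hinv, mul_pow, ← Complex.ofReal_pow, Complex.re_ofReal_mul, ← map_pow, Complex.conj_re, ← mul_neg,
      Real.exp_nat_mul, hℓ, Real.exp_neg, Real.exp_log h0]
  have e3 : hh b n z - (1 - (vz b z ^ n).re) = (1 - Real.cosh (n * ℓ)) * (vz b z ^ n).re := by
    unfold hh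
    rw [e1, e2, Real.cosh_eq]
    ring
  rw [e3, abs_mul]
  have h3 : Real.cosh (n * ℓ) ≤ Real.cosh (n * (|z.re| * gg b z.im)) := by
    have hg : 0 ≤ |z.re| * gg b z.im := mul_nonneg (abs_nonneg _) (gg_nonneg hb _)
    rw [Real.cosh_le_cosh, abs_mul, abs_of_nonneg (show (0:ℝ) ≤ n * (|z.re| * gg b z.im) by positivity),
      abs_of_nonneg (show (0:ℝ) ≤ n from Nat.cast_nonneg n)]
    exact mul_le_mul_of_nonneg_left hl (Nat.cast_nonneg n)
  have hg : 0 ≤ |z.re| * gg b z.im := mul_nonneg (abs_nonneg _) (gg_nonneg hb _)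
  have h4 := cosh_sub_one_le (show (0:ℝ) ≤ n * (|z.re| * gg b z.im) by positivity)
  have h5 := Real.one_le_cosh (n * ℓ)
  have h6 : |(vz b z ^ n).re| ≤ 1 := by
    refine (Complex.abs_re_le_norm _).trans ?_
    rw [norm_pow, hv, one_pow]
  have h7 : |1 - Real.cosh (n * ℓ)| = Real.cosh (n * ℓ) - 1 := by
    rw [abs_sub_comm, abs_of_nonneg (by linarith)]
  rw [h7]
  calc (Real.cosh (n * ℓ) - 1) * |(vz b z ^ n).re| ≤ (Real.cosh (n * ℓ) - 1) * 1 := by
        gcongr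
    _ ≤ _ := by linarith

/-- a complex number near `1`, normalised -/
lemma unit_near {ξ : ℂ} (h : ‖ξ - 1‖ ≤ 1 / 4) : ‖ξ / (‖ξ‖ : ℂ) - 1‖ ≤ 3 * |ξ.im| := by
  have h1 : 3 / 4 ≤ ξ.re := by
    have := Complex.abs_re_le_norm (ξ - 1)
    rw [Complex.sub_re, Complex.one_re] at this
    have := (abs_le.1 (this.trans h)).1
    linarith
  have h2 : ξ.re ≤ ‖ξ‖ := Complex.re_le_norm ξ
  have h3 : ‖ξ‖ ≤ |ξ.re| + |ξ.im| := Complex.norm_le_abs_re_add_abs_im ξ
  rw [abs_of_nonneg (by linarith : 0 ≤ ξ.re)] at h3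
  have h4 : 0 < ‖ξ‖ := by linarith
  have h5 : ((‖ξ‖ : ℝ) : ℂ) ≠ 0 := by exact_mod_cast h4.ne'
  have e : ξ / (‖ξ‖ : ℂ) - 1 = (ξ - (‖ξ‖ : ℂ)) / (‖ξ‖ : ℂ) := by
    rw [sub_div, div_self h5]
  rw [e, norm_div, Complex.norm_real, Real.norm_eq_abs, abs_of_pos h4, div_le_iff₀ h4]
  have h6 := Complex.norm_le_abs_re_add_abs_im (ξ - (‖ξ‖ : ℂ))
  rw [Complex.sub_re, Complex.sub_im, Complex.ofReal_re, Complex.ofReal_im, sub_zero] at h6
  have h7 : |ξ.re - ‖ξ‖| ≤ |ξ.im| := by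
    rw [abs_sub_comm, abs_of_nonneg (by linarith)]
    linarith
  have h8 := abs_nonneg ξ.im
  nlinarith

lemma vz_cmp {b : ℝ} (hb : 1 ≤ b) {z : ℂ} (hz : |z.re| < 1 / 2) :
    ‖vz b z - wl b z.im‖ ≤ 8 / (1 + |z.im|) ^ 2 := by
  have hbh : (1 / 2 : ℝ) < b := by linarith
  have hb0 : 0 < b := by linarith
  set x := z.re with hx
  set y := z.im with hy
  set D : ℂ := (b : ℂ) + (y : ℂ) * I with hD
  have hD0 : D ≠ 0 := den_ne hb0 y
  have hDc : starRingEnd ℂ D = (b : ℂ) - (y : ℂ) * I := by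
    rw [hD, map_add, map_mul, Complex.conj_ofReal, Complex.conj_ofReal, Complex.conj_I]
    ring
  have hDc0 : starRingEnd ℂ D ≠ 0 := (map_ne_zero _).2 hD0
  have hze : z = (x : ℂ) + (y : ℂ) * I := (Complex.re_add_im z).symm
  have e1 : z + b = D + x := by rw [hD]; conv_lhs => rw [hze]
                                ring
  have e2 : z - b = x - starRingEnd ℂ D := by rw [hDc]; conv_lhs => rw [hze]
                                              ring
  have hDx : D + x ≠ 0 := by rw [← e1]; exact Pool.Agent.N831.LI.add_ne hbh hz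
  have hDx2 : starRingEnd ℂ D + x ≠ 0 := by
    have : starRingEnd ℂ (D + x) ≠ 0 := (map_ne_zero _).2 hDx
    rwa [map_add, Complex.conj_ofReal] at this
  set ξ : ℂ := 1 - (x : ℂ) ^ 2 / (starRingEnd ℂ D) ^ 2 with hξ
  have hnD : ‖D‖ ^ 2 = b ^ 2 + y ^ 2 := norm_den_sq b y
  have hnD1 : 1 ≤ ‖D‖ ^ 2 := by rw [hnD]; nlinarith [sq_nonneg y]
  have hx2 : x ^ 2 ≤ 1 / 4 := by
    rw [abs_lt] at hz
    nlinarith [hz.1, hz.2]
  have hξ1 : ‖ξ - 1‖ ≤ 1 / 4 := by
    have e : ξ - 1 = -((x : ℂ) ^ 2 / (starRingEnd ℂ D) ^ 2) := by rw [hξ]; ring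
    rw [e, norm_neg, norm_div, norm_pow, norm_pow, Complex.norm_conj, Complex.norm_real, Real.norm_eq_abs, sq_abs,
      div_le_iff₀ (by linarith)]
    linarith
  -- `W = w0 * s * ξ`
  obtain ⟨s, hs⟩ : ∃ s : ℝ, s = Complex.normSq D / Complex.normSq (D + x) := ⟨_, rfl⟩
  have hs0 : 0 < s := by rw [hs]; exact div_pos (Complex.normSq_pos.2 hD0) (Complex.normSq_pos.2 hDx)
  have hw0 : wl b y = -(starRingEnd ℂ D) / D := by
    unfold wl W
    rw [hDc, hD]
    congr 1 <;> ring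
  have hW : W b z = wl b y * ((s : ℂ) * ξ) := by
    have hs' : (s : ℂ) = (D * starRingEnd ℂ D) / ((D + x) * (starRingEnd ℂ D + x)) := by
      rw [hs]
      push_cast
      rw [← Complex.mul_conj, ← Complex.mul_conj, map_add (starRingEnd ℂ) D (x : ℂ), Complex.conj_ofReal]
    rw [hw0, hs', hξ]
    unfold W
    rw [e1, e2]
    field_simp
    ring
  have hw1 : ‖wl b y‖ = 1 := wl_norm hb0 y
  have hξ0 : 0 < ‖ξ‖ := by
    rw [norm_pos_iff]
    intro h0
    rw [h0, zero_sub, norm_neg, norm_one] at hξ1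
    norm_num at hξ1
  have hnW : ‖W b z‖ = s * ‖ξ‖ := by
    rw [hW, norm_mul, hw1, one_mul, norm_mul, Complex.norm_real, Real.norm_eq_abs, abs_of_pos hs0]
  have hv : vz b z = wl b y * (ξ / (‖ξ‖ : ℂ)) := by
    unfold vz
    rw [hnW, hW]
    push_cast
    have h1 : (s : ℂ) ≠ 0 := by exact_mod_cast hs0.ne'
    have h2 : ((‖ξ‖ : ℝ) : ℂ) ≠ 0 := by exact_mod_cast hξ0.ne'
    field_simp
  have e3 : vz b z - wl b y = wl b y * (ξ / (‖ξ‖ : ℂ) - 1) := by rw [hv]; ring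
  rw [e3, norm_mul, hw1, one_mul]
  refine (unit_near hξ1).trans ?_
  -- the imaginary part
  have him : |ξ.im| ≤ 1 / 4 * (2 * b * |y| / (b ^ 2 + y ^ 2) ^ 2) := by
    have e4 : ξ = 1 - ((x ^ 2 / (‖D‖ ^ 2) ^ 2 : ℝ) : ℂ) * D ^ 2 := by
      rw [hξ]
      have h5 : ((‖D‖ ^ 2 : ℝ) : ℂ) = D * starRingEnd ℂ D := by
        rw [Complex.mul_conj, Complex.normSq_eq_norm_sq]
      push_cast
      push_cast at h5
      rw [h5]
      field_simp
    have e5 : (D ^ 2).im = 2 * b * y := by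
      rw [hD, sq]
      simp
      ring
    rw [e4, Complex.sub_im, Complex.one_im, Complex.im_ofReal_mul, e5, zero_sub, abs_neg, abs_mul, abs_div, abs_mul,
      abs_mul, abs_two, abs_of_pos hb0, hnD, abs_of_nonneg (sq_nonneg x), abs_of_nonneg (sq_nonneg (b ^ 2 + y ^ 2))]
    have h6 : 0 ≤ 2 * b * |y| / (b ^ 2 + y ^ 2) ^ 2 := by positivity
    calc x ^ 2 / (b ^ 2 + y ^ 2) ^ 2 * (2 * b * |y|) = x ^ 2 * (2 * b * |y| / (b ^ 2 + y ^ 2) ^ 2) := by ring
      _ ≤ _ := by gcongr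
  have hfin : 2 * b * |y| / (b ^ 2 + y ^ 2) ^ 2 ≤ 8 / (1 + |y|) ^ 2 := by
    have hy0 := abs_nonneg y
    have hyy : y ^ 2 = |y| ^ 2 := (sq_abs y).symm
    rw [div_le_div_iff₀ (by positivity) (by positivity), hyy]
    rcases le_total |y| 1 with h1 | h1
    · have a1 : (1 + |y|) ^ 2 ≤ 4 := by nlinarith
      have a2 : 2 * b * |y| * (1 + |y|) ^ 2 ≤ 2 * b * 1 * 4 := by gcongr
      have a3 : b ≤ b ^ 2 + |y| ^ 2 := by nlinarith
      have a4 : 1 ≤ b ^ 2 + |y| ^ 2 := by linarith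
      have a5 : b * 1 ≤ (b ^ 2 + |y| ^ 2) * (b ^ 2 + |y| ^ 2) := by gcongr
      nlinarith
    · have a1 : (1 + |y|) ^ 2 ≤ 4 * |y| ^ 2 := by nlinarith
      have a2 : 2 * b * |y| * (1 + |y|) ^ 2 ≤ 2 * b * |y| * (4 * |y| ^ 2) := by gcongr
      have a3 : 2 * b * |y| ≤ b ^ 2 + |y| ^ 2 := by nlinarith [sq_nonneg (b - |y|)]
      have a6 : |y| ^ 2 ≤ b ^ 2 + |y| ^ 2 := by nlinarith
      have a4 : (2 * b * |y|) * |y| ^ 2 ≤ (b ^ 2 + |y| ^ 2) * (b ^ 2 + |y| ^ 2) := by gcongr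
      nlinarith
  have h10 : 0 ≤ 8 / (1 + |y|) ^ 2 := by positivity
  linarith

/-- **comparison of the terms** -/
theorem hh_fk {b : ℝ} (hb : 1 ≤ b) {z : ℂ} (hz : |z.re| < 1 / 2) (n : ℕ) :
    |hh b n z - fk b n z.im| ≤ (n * (|z.re| * gg b z.im)) ^ 2 / 2 * Real.exp (n * (|z.re| * gg b z.im)) +
      8 * n / (1 + |z.im|) ^ 2 := by
  have hbh : (1 / 2 : ℝ) < b := by linarith
  have hb0 : 0 < b := by linarith
  have h1 := hh_cmp hbh hz n
  have h2 : |(1 - (vz b z ^ n).re) - fk b n z.im| ≤ 8 * n / (1 + |z.im|) ^ 2 := by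
    have e : (1 - (vz b z ^ n).re) - fk b n z.im = (wl b z.im ^ n - vz b z ^ n).re := by
      unfold fk
      rw [Complex.sub_re]
      ring
    rw [e]
    refine (Complex.abs_re_le_norm _).trans ?_
    refine (pow_sub_le (wl_norm hb0 _).le (vz_norm hbh hz).le n).trans ?_
    rw [norm_sub_rev]
    have h3 := vz_cmp hb hz
    calc (n : ℝ) * ‖vz b z - wl b z.im‖ ≤ n * (8 / (1 + |z.im|) ^ 2) := by
          gcongr
      _ = _ := by ring
  calc |hh b n z - fk b n z.im| ≤ |hh b n z - (1 - (vz b z ^ n).re)| + |(1 - (vz b z ^ n).re) - fk b n z.im| :=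
        abs_sub_le _ _ _
    _ ≤ _ := add_le_add h1 h2

/-- comparison of the sums -/
theorem li_fk {κ : ℝ} (hκ : 0 < κ) (hD : Dn Mz κ) {ε : ℝ} (hε : 0 < ε) :
    ∀ᶠ b : ℝ in atTop, ∀ n : ℕ, 1 ≤ n → (n : ℝ) ≤ κ * b * Real.log b →
      |li Mz b n - ∑' z : ℂ, Mz z * fk b n z.im| ≤ ε * n * b * Real.log b := by
  obtain ⟨C2, hC2, hc2⟩ := cnt2 zsz
  have e1 := neg_small zsz hκ hD (show 0 < ε / 2 by positivity)
  filter_upwards [e1, eventually_ge_atTop (max 3 (16 * C2 / ε))] with b h1 hb n hn hnk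
  have hb3 : 3 ≤ b := (le_max_left _ _).trans hb
  have hbC : 16 * C2 / ε ≤ b := (le_max_right _ _).trans hb
  rw [div_le_iff₀ hε] at hbC
  have hb1 : 1 ≤ b := by linarith
  have hb0 : 0 < b := by linarith
  have hl : 1 ≤ Real.log b := by
    rw [Real.le_log_iff_exp_le hb0]
    have := Real.exp_one_lt_d9
    linarith
  have hs := (li_symm zsz hb1 n).sub (fk_summ hb0 n).hasSum
  have key : ∀ S : Finset ℂ, |∑ z ∈ S, (Mz z * hh b n z - Mz z * fk b n z.im)| ≤ ε * n * b * Real.log b := by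
    intro S
    have h2 := h1 n hn hnk S
    have h3 := hc2 S
    calc |∑ z ∈ S, (Mz z * hh b n z - Mz z * fk b n z.im)|
        ≤ ∑ z ∈ S, |Mz z * hh b n z - Mz z * fk b n z.im| := Finset.abs_sum_le_sum_abs _ _
      _ ≤ ∑ z ∈ S, (qq Mz b n z + 8 * n * (Mz z / (1 + |z.im|) ^ 2)) := by
          refine Finset.sum_le_sum fun z _ => ?_
          rw [← mul_sub, abs_mul, abs_of_nonneg (Mz_nn z)]
          by_cases h0 : Mz z = 0
          · unfold qq
            simp [h0]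
          · have h4 := hh_fk hb1 (Mz_ne h0).1 n
            have h5 := mul_le_mul_of_nonneg_left h4 (Mz_nn z)
            unfold qq
            refine h5.trans (le_of_eq ?_)
            ring
      _ = ∑ z ∈ S, qq Mz b n z + 8 * n * ∑ z ∈ S, Mz z / (1 + |z.im|) ^ 2 := by
          rw [Finset.sum_add_distrib, Finset.mul_sum]
      _ ≤ ε / 2 * n * b * Real.log b + 8 * n * C2 := by gcongr
      _ ≤ _ := by
          have h6 : 8 * n * C2 ≤ ε / 2 * n * b * 1 := by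
            have : (n : ℝ) * (16 * C2) ≤ n * (b * ε) := by gcongr
            linarith
          have h7 : ε / 2 * n * b * 1 ≤ ε / 2 * n * b * Real.log b := by gcongr
          linarith
  refine le_of_tendsto (hs.abs) (Eventually.of_forall key)

/-- **the law, in terms of `b`** -/
theorem law_b {κ : ℝ} (hκ : 0 < κ) (hD : Dn Mz κ) {ε : ℝ} (hε : 0 < ε) :
    ∀ᶠ b : ℝ in atTop, ∀ n : ℕ, 1 ≤ n → (n : ℝ) ≤ κ * b * Real.log b →
      |li Mz b n - n * b * Real.log (n * b)| ≤ ε * (n * b * Real.log (n * b)) := by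
  obtain ⟨X1, hX1, h2⟩ := ksum (show 0 < ε / 2 by positivity)
  filter_upwards [li_fk hκ hD (show 0 < ε / 2 by positivity), eventually_ge_atTop X1] with b h1 hb n hn hnk
  have hn1 : (1 : ℝ) ≤ n := by exact_mod_cast hn
  have hb0 : 0 < b := by linarith
  have hbn : b ≤ n * b := le_mul_of_one_le_left hb0.le hn1
  have h3 := h1 n hn hnk
  have h4 := h2 b hb0 n (hb.trans hbn)
  have h5 : Real.log b ≤ Real.log (n * b) := Real.log_le_log hb0 hbn
  have h6 : ε / 2 * n * b * Real.log b ≤ ε / 2 * (n * b * Real.log (n * b)) := by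
    have : ε / 2 * n * b * Real.log b ≤ ε / 2 * n * b * Real.log (n * b) := by gcongr
    linarith
  have h7 := abs_sub_le (li Mz b n) (∑' z : ℂ, Mz z * fk b n z.im) (n * b * Real.log (n * b))
  linarith

end

end Pool.Agent.U156.LZ
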