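import Pool.Agent.U156.LZ.Zsm

/-!
# Counting the zeros of zeta
-/

set_option autoImplicit false

open Complex Filter Topology Finset
open scoped ComplexConjugate

namespace Pool.Agent.U156.LZ

open H370 (NN zset mult zset_finite good_zeta nn_asymp)

noncomputable section

/-- number of zeros with `T1 < im ≤ T2` -/
def Nr (T1 T2 : ℝ) : ℝ := (NN riemannZeta T1 T2 : ℝ)

lemma Nr_nn (T1 T2 : ℝ) : 0 ≤ Nr T1 T2 := Nat.cast_nonneg _

lemma Nr_mono {a b a' b' : ℝ} (h : 1 ≤ a') (ha : a' ≤ a) (hb : b ≤ b') : Nr a b ≤ Nr a' b' := by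
  unfold Nr
  exact_mod_cast H370.NN_mono good_zeta h ha hb

lemma Nr_add {a b c : ℝ} (h : 1 ≤ a) (hab : a ≤ b) (hbc : b ≤ c) : Nr a c = Nr a b + Nr b c := by
  unfold Nr
  exact_mod_cast H370.NN_add good_zeta h hab hbc

lemma sub_Nr {T1 T2 : ℝ} (h : 1 ≤ T1) (S : Finset ℂ) (hS : ∀ z ∈ S, T1 < z.im ∧ z.im ≤ T2) :
    ∑ z ∈ S, Mz z ≤ Nr T1 T2 := by
  classical
  obtain ⟨P, hP1, hP2⟩ := NN_Mz T2 h
  unfold Nr
  rw [hP2]
  rw [← Finset.sum_filter_add_sum_filter_not S (fun z => Mz z ≠ 0)]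
  have h1 : ∑ z ∈ S.filter (fun z => ¬ Mz z ≠ 0), Mz z = 0 :=
    Finset.sum_eq_zero fun z hz => not_not.1 (Finset.mem_filter.1 hz).2
  rw [h1, add_zero]
  refine Finset.sum_le_sum_of_subset_of_nonneg (fun z hz => ?_) fun z _ _ => Mz_nn z
  rw [Finset.mem_filter] at hz
  exact (hP1 z).2 ⟨hz.2, (hS z hz.1).1, (hS z hz.1).2⟩

lemma log_sq {T : ℝ} (h : 1 ≤ T) : Real.log T ^ 2 ≤ 4 * T := H370.log_sq_le h

lemma log_le_self {T : ℝ} (h : 0 < T) : Real.log T ≤ T := by
  have := Real.log_le_sub_one_of_pos h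
  linarith

/-- short blocks -/
theorem short : ∃ C : ℝ, 0 < C ∧ ∀ T : ℝ, 10 ≤ T → ∀ H : ℝ, 0 ≤ H → H ≤ T →
    |Nr T (T + H) - H * Real.log T / (2 * Real.pi)| ≤ C * T := by
  obtain ⟨C, hC, h⟩ := H965SI.nn_asymp_short good_zeta
  have hpi := Real.pi_gt_three
  refine ⟨10 * C + 10, by positivity, fun T hT H h0 hH => ?_⟩
  have hT0 : 0 < T := by linarith
  have hl2 := log_sq (show 1 ≤ T by linarith)
  have hl1 := log_le_self hT0
  have hl0 : 0 ≤ Real.log T := Real.log_nonneg (by linarith)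
  rcases le_total 3 H with h3 | h3
  · have h1 := h T hT H h3 hH T (T + H) le_rfl (by linarith) (by linarith) le_rfl
    refine h1.trans ?_
    have : C * (H + Real.log T ^ 2) ≤ C * (T + 4 * T) := by gcongr
    nlinarith
  · have h1 := h T hT 3 le_rfl (by linarith) T (T + 3) le_rfl (by linarith) (by linarith) le_rfl
    have h2 := (abs_le.1 h1).2
    have h4 : Nr T (T + H) ≤ Nr T (T + 3) := Nr_mono (by linarith) le_rfl (by linarith)
    have h5 : 3 * Real.log T / (2 * Real.pi) ≤ T := by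
      rw [div_le_iff₀ (by positivity)]
      nlinarith
    have h6 : C * (3 + Real.log T ^ 2) ≤ C * (T + 4 * T) := by gcongr; linarith
    have h7 : Nr T (T + 3) ≤ T + C * (5 * T) := by
      unfold Nr
      linarith
    have h8 : 0 ≤ H * Real.log T / (2 * Real.pi) := by positivity
    have h9 : H * Real.log T / (2 * Real.pi) ≤ T := by
      rw [div_le_iff₀ (by positivity)]
      nlinarith
    have h10 := Nr_nn T (T + H)
    rw [abs_le]
    constructor <;> nlinarith

/-- the number of zeros in `(A, t]`, `t ≤ 2 ^ k A` -/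
theorem chain (k : ℕ) : ∃ C : ℝ, 0 < C ∧ ∀ A : ℝ, 10 ≤ A → ∀ t : ℝ, A ≤ t → t ≤ 2 ^ k * A →
    |Nr A t - (t - A) * Real.log A / (2 * Real.pi)| ≤ C * t := by
  obtain ⟨C0, hC0, h0⟩ := short
  have hpi := Real.pi_gt_three
  induction k with
  | zero =>
    refine ⟨C0, hC0, fun A hA t h1 h2 => ?_⟩
    rw [pow_zero, one_mul] at h2
    have h3 := h0 A hA (t - A) (by linarith) (by linarith)
    rw [add_sub_cancel] at h3
    refine h3.trans ?_
    gcongr
  | succ k ih =>
    obtain ⟨C, hC, ih⟩ := ih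
    refine ⟨C + C0 + k, by positivity, fun A hA t h1 h2 => ?_⟩
    have hk1 : (1 : ℝ) ≤ 2 ^ k := one_le_pow₀ (by norm_num)
    rcases le_total t (2 ^ k * A) with h3 | h3
    · refine (ih A hA t h1 h3).trans ?_
      have : 0 ≤ (C0 + k) * t := by
        have : 0 ≤ t := by linarith
        positivity
      nlinarith
    · set B : ℝ := 2 ^ k * A with hB
      have hAB : A ≤ B := by rw [hB]; nlinarith
      have e1 := Nr_add (show 1 ≤ A by linarith) hAB h3
      have e2 := ih A hA B hAB le_rfl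
      have e3 := h0 B (by linarith) (t - B) (by linarith) (by
        rw [pow_succ] at h2
        nlinarith)
      rw [add_sub_cancel] at e3
      have e4 : Real.log B = k * Real.log 2 + Real.log A := by
        rw [hB, Real.log_mul (by positivity) (by linarith), Real.log_pow]
      have e5 : Real.log 2 ≤ 1 := by
        have := Real.log_two_lt_d9
        linarith
      have e6 : 0 ≤ Real.log 2 := Real.log_nonneg (by norm_num)
      have e7 : |(t - B) * (k * Real.log 2) / (2 * Real.pi)| ≤ k * t := by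
        rw [abs_of_nonneg (by
          have : 0 ≤ t - B := by linarith
          positivity), div_le_iff₀ (by positivity)]
        have hk0 : (0 : ℝ) ≤ k := Nat.cast_nonneg k
        have a1 : (t - B) * (k * Real.log 2) ≤ t * (k * 1) := by
          have h0 : 0 ≤ t - B := by linarith
          have h01 : t - B ≤ t := by linarith
          have h02 : 0 ≤ t := by linarith
          gcongr
        have a2 : 0 ≤ t * k := by
          have : 0 ≤ t := by linarith
          positivity
        nlinarith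
      have e8 : Nr A t - (t - A) * Real.log A / (2 * Real.pi) =
          (Nr A B - (B - A) * Real.log A / (2 * Real.pi)) +
          ((Nr B t - (t - B) * Real.log B / (2 * Real.pi)) + (t - B) * (k * Real.log 2) / (2 * Real.pi)) := by
        rw [e1, e4]
        ring
      rw [e8]
      have hBt : C * B ≤ C * t := by gcongr
      have hBt2 : C0 * B ≤ C0 * t := by gcongr
      refine (abs_add_le _ _).trans ?_
      have := abs_add_le (Nr B t - (t - B) * Real.log B / (2 * Real.pi)) ((t - B) * (k * Real.log 2) / (2 * Real.pi))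
      linarith

/-- dyadic blocks -/
theorem dya : ∃ C : ℝ, 0 < C ∧ ∀ T : ℝ, 10 ≤ T → Nr T (2 * T) ≤ C * T * Real.log T := by
  obtain ⟨C, hC, h⟩ := short
  have hpi := Real.pi_gt_three
  refine ⟨C + 1, by positivity, fun T hT => ?_⟩
  have h1 := (abs_le.1 (h T hT T (by linarith) le_rfl)).2
  have e : T + T = 2 * T := by ring
  rw [e] at h1
  have hl : 1 ≤ Real.log T := H965SI.one_le_log hT
  have h2 : T * Real.log T / (2 * Real.pi) ≤ T * Real.log T := by
    apply div_le_self (by positivity)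
    linarith
  have h3 : C * T ≤ C * T * Real.log T := le_mul_of_one_le_right (by positivity) hl
  linarith

lemma dya_log {T : ℝ} (hT : 10 ≤ T) (k : ℕ) : Real.log (2 ^ k * T) ≤ (k + 1) * Real.log T := by
  have hl : 1 ≤ Real.log T := H965SI.one_le_log hT
  rw [Real.log_mul (by positivity) (by linarith), Real.log_pow]
  have e5 : Real.log 2 ≤ Real.log T := Real.log_le_log (by norm_num) (by linarith)
  have : (k : ℝ) * Real.log 2 ≤ k * Real.log T := by gcongr
  linarith

/-- the tail, dyadic form -/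
theorem tail_aux : ∃ C : ℝ, 0 < C ∧ ∀ T : ℝ, 10 ≤ T → ∀ (k : ℕ) (S : Finset ℂ),
    (∀ z ∈ S, T < z.im ∧ z.im ≤ 2 ^ k * T) →
    ∑ z ∈ S, Mz z / z.im ^ 2 ≤ C * Real.log T / T * (4 - (k + 3) / 2 ^ k) := by
  classical
  obtain ⟨C, hC, h⟩ := dya
  refine ⟨2 * C, by positivity, fun T hT k => ?_⟩
  have hT0 : 0 < T := by linarith
  have hl : 1 ≤ Real.log T := H965SI.one_le_log hT
  induction k with
  | zero =>
    intro S hS
    have h1 : ∑ z ∈ S, Mz z / z.im ^ 2 = 0 := by
      refine Finset.sum_eq_zero fun z hz => ?_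
      have := hS z hz
      rw [pow_zero, one_mul] at this
      linarith [this.1, this.2]
    rw [h1]
    have : 0 ≤ 2 * C * Real.log T / T := by positivity
    have e : (4 - (((0 : ℕ) : ℝ) + 3) / 2 ^ 0) = 1 := by norm_num
    rw [e]
    linarith
  | succ k ih =>
    intro S hS
    rw [← Finset.sum_filter_add_sum_filter_not S (fun z => z.im ≤ 2 ^ k * T)]
    have h1 := ih (S.filter (fun z => z.im ≤ 2 ^ k * T)) (fun z hz => by
      rw [Finset.mem_filter] at hz
      exact ⟨(hS z hz.1).1, hz.2⟩)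
    set B : ℝ := 2 ^ k * T with hB
    have hk1 : (1 : ℝ) ≤ 2 ^ k := one_le_pow₀ (by norm_num)
    have hTB : T ≤ B := by rw [hB]; nlinarith
    have hB0 : 0 < B := by linarith
    have h2 : ∑ z ∈ S.filter (fun z => ¬ z.im ≤ B), Mz z / z.im ^ 2 ≤ ∑ z ∈ S.filter (fun z => ¬ z.im ≤ B), Mz z / B ^ 2 := by
      refine Finset.sum_le_sum fun z hz => ?_
      rw [Finset.mem_filter, not_le] at hz
      apply div_le_div_of_nonneg_left (Mz_nn z) (by positivity)
      exact pow_le_pow_left₀ hB0.le hz.2.le 2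
    have h3 := sub_Nr (T1 := B) (T2 := 2 * B) (by linarith) (S.filter (fun z => ¬ z.im ≤ B)) (fun z hz => by
      rw [Finset.mem_filter, not_le] at hz
      refine ⟨hz.2, ?_⟩
      have := (hS z hz.1).2
      rw [pow_succ] at this
      linarith)
    rw [← Finset.sum_div] at h2
    have h4 := h B (by linarith)
    have h5 := dya_log hT k
    rw [← hB] at h5
    have h6 : (∑ z ∈ S.filter (fun z => ¬ z.im ≤ B), Mz z) / B ^ 2 ≤ C * Real.log T / T * ((k + 1) / 2 ^ k) := by
      rw [div_le_iff₀ (by positivity)]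
      have e : C * Real.log T / T * ((k + 1) / 2 ^ k) * B ^ 2 = C * B * ((k + 1) * Real.log T) := by
        rw [hB]
        field_simp
      rw [e]
      refine (h3.trans h4).trans ?_
      gcongr
    have e : 2 * C * Real.log T / T * (4 - (((k + 1 : ℕ) : ℝ) + 3) / 2 ^ (k + 1)) =
        2 * C * Real.log T / T * (4 - (k + 3) / 2 ^ k) + C * Real.log T / T * ((k + 2) / 2 ^ k) := by
      push_cast
      rw [pow_succ]
      field_simp
      ring
    rw [e]
    have h7 : C * Real.log T / T * ((k + 1) / 2 ^ k) ≤ C * Real.log T / T * ((k + 2) / 2 ^ k) := by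
      gcongr
      norm_num
    linarith

lemma exists_dya {T : ℝ} (hT : 0 < T) (S : Finset ℂ) : ∃ k : ℕ, ∀ z ∈ S, z.im ≤ 2 ^ k * T := by
  classical
  obtain ⟨R, hR⟩ : ∃ R : ℝ, ∀ z ∈ S, z.im ≤ R := by
    refine ⟨∑ z ∈ S, |z.im|, fun z hz => ?_⟩
    exact (le_abs_self _).trans (Finset.single_le_sum (f := fun z : ℂ => |z.im|) (fun _ _ => abs_nonneg _) hz)
  obtain ⟨k, hk⟩ := pow_unbounded_of_one_lt (R / T) (show (1 : ℝ) < 2 by norm_num)
  refine ⟨k, fun z hz => (hR z hz).trans ?_⟩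
  rw [div_lt_iff₀ hT] at hk
  exact hk.le

/-- the tail -/
theorem tail : ∃ C : ℝ, 0 < C ∧ ∀ T : ℝ, 10 ≤ T → ∀ S : Finset ℂ,
    (∀ z ∈ S, T < z.im) → ∑ z ∈ S, Mz z / z.im ^ 2 ≤ C * Real.log T / T := by
  obtain ⟨C, hC, h⟩ := tail_aux
  refine ⟨4 * C, by positivity, fun T hT S hS => ?_⟩
  obtain ⟨k, hk⟩ := exists_dya (show 0 < T by linarith) S
  refine (h T hT k S fun z hz => ⟨hS z hz, hk z hz⟩).trans ?_
  have h1 : 0 ≤ C * Real.log T / T := by
    have := Real.log_nonneg (show 1 ≤ T by linarith)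
    positivity
  have h2 : (4 - ((k : ℝ) + 3) / 2 ^ k) ≤ 4 := by
    have : 0 ≤ ((k : ℝ) + 3) / 2 ^ k := by positivity
    linarith
  calc C * Real.log T / T * (4 - (k + 3) / 2 ^ k) ≤ C * Real.log T / T * 4 := by gcongr
    _ = _ := by ring

/-- all the zeros up to `Y` -/
theorem tot : ∃ C : ℝ, 0 < C ∧ ∀ Y : ℝ, 10 ≤ Y → ∀ S : Finset ℂ,
    (∀ z ∈ S, 0 < z.im ∧ z.im ≤ Y) → ∑ z ∈ S, Mz z ≤ C * Y * Real.log Y := by
  classical
  obtain ⟨C1, hC1, h1⟩ := cntz 2 (by norm_num)
  obtain ⟨C2, hC2, h2⟩ := dya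
  obtain ⟨D, hD⟩ : ∃ D : ℝ, D = C1 * 21 ^ (2 : ℝ) := ⟨_, rfl⟩
  have hD0 : 0 ≤ D := by rw [hD]; positivity
  refine ⟨D + 2 * C2, by positivity, ?_⟩
  -- by dyadic induction
  have key : ∀ (k : ℕ) (Y : ℝ), 10 ≤ Y → Y ≤ 2 ^ k * 20 → ∀ S : Finset ℂ,
      (∀ z ∈ S, 0 < z.im ∧ z.im ≤ Y) → ∑ z ∈ S, Mz z ≤ (D + 2 * C2) * Y * Real.log Y := by
    intro k
    induction k with
    | zero =>
      intro Y hY hY2 S hS
      rw [pow_zero, one_mul] at hY2
      have h3 := h1 S
      have h4 : (∑ z ∈ S, Mz z) / 21 ^ (2 : ℝ) ≤ ∑ z ∈ S, Mz z / (1 + |z.im|) ^ (2 : ℝ) := by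
        rw [Finset.sum_div]
        refine Finset.sum_le_sum fun z hz => ?_
        have := hS z hz
        apply div_le_div_of_nonneg_left (Mz_nn z) (by positivity)
        apply Real.rpow_le_rpow (by positivity) _ (by norm_num)
        rw [abs_of_pos this.1]
        linarith
      have h5 := h4.trans h3
      rw [div_le_iff₀ (by positivity), ← hD] at h5
      have hl : 1 ≤ Real.log Y := H965SI.one_le_log hY
      have h6 : D ≤ (D + 2 * C2) * Y := by nlinarith
      have h7 : (D + 2 * C2) * Y ≤ (D + 2 * C2) * Y * Real.log Y :=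
        le_mul_of_one_le_right (by positivity) hl
      linarith
    | succ k ih =>
      intro Y hY hY2 S hS
      rcases le_total Y (2 ^ k * 20) with h3 | h3
      · exact ih Y hY h3 S hS
      have hk1 : (1 : ℝ) ≤ 2 ^ k := one_le_pow₀ (by norm_num)
      have h4 := ih (Y / 2) (by linarith) (by rw [pow_succ] at hY2; linarith) (S.filter (fun z => z.im ≤ Y / 2))
        (fun z hz => by
          rw [Finset.mem_filter] at hz
          exact ⟨(hS z hz.1).1, hz.2⟩)
      have h5 := sub_Nr (T1 := Y / 2) (T2 := 2 * (Y / 2)) (by linarith) (S.filter (fun z => ¬ z.im ≤ Y / 2)) (fun z hz => by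
        rw [Finset.mem_filter, not_le] at hz
        refine ⟨hz.2, ?_⟩
        have := (hS z hz.1).2
        linarith)
      have h6 := h2 (Y / 2) (by linarith)
      rw [← Finset.sum_filter_add_sum_filter_not S (fun z => z.im ≤ Y / 2)]
      have h7 : Real.log (Y / 2) ≤ Real.log Y := Real.log_le_log (by linarith) (by linarith)
      have h8 : (D + 2 * C2) * (Y / 2) * Real.log (Y / 2) ≤
          (D + 2 * C2) * (Y / 2) * Real.log Y := by gcongr
      have h9 : C2 * (Y / 2) * Real.log (Y / 2) ≤ C2 * (Y / 2) * Real.log Y := by gcongr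
      have hl0 := Real.log_nonneg (show 1 ≤ Y by linarith)
      have h10 : 0 ≤ D * (Y / 2) * Real.log Y := by positivity
      have h11 : 0 ≤ C2 * (Y / 2) * Real.log Y := by positivity
      have e : (D + 2 * C2) * Y * Real.log Y =
        (D + 2 * C2) * (Y / 2) * Real.log Y + (C2 * (Y / 2) * Real.log Y + (C2 * (Y / 2) * Real.log Y + D * (Y / 2) * Real.log Y)) := by ring
      linarith
  intro Y hY S hS
  obtain ⟨k, hk⟩ := pow_unbounded_of_one_lt (Y / 20) (show (1 : ℝ) < 2 by norm_num)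
  rw [div_lt_iff₀ (by norm_num)] at hk
  exact key k Y hY hk.le S hS

end

end Pool.Agent.U156.LZ
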