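import Pool.Agent.N831.LI.Neg
import Pool.Agent.W190.C3
import Pool.Agent.Y21.FW.Zeros
import Pool.Agent.H370R2.Count

/-!
# The zeros of the Riemann zeta function as abstract zero data (for `Pool.Agent.N831.LI`)
-/

set_option autoImplicit false

open Complex Filter Topology Finset
open scoped ComplexConjugate

namespace Pool.Agent.U156.LZ

open Pool.Agent.N831.LI (Zs Dn)
open H353 (mu mu_cast mu_pos)
open ZU.J_g2b (FF_one FF_ne FF_zero_re)

noncomputable section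

/-- the multiplicity of the zero `1/2 + z` in the open critical strip -/
def Mz (z : ℂ) : ℝ := if |z.re| < 1 / 2 then (analyticOrderNatAt riemannZeta (1 / 2 + z) : ℝ) else 0

lemma half_re (z : ℂ) : (1 / 2 + z : ℂ).re = 1 / 2 + z.re := by simp

lemma half_im (z : ℂ) : (1 / 2 + z : ℂ).im = z.im := by simp

lemma ne_one_of {s : ℂ} (h : s.re < 1) : s ≠ 1 := by
  rintro rfl
  simp at h

/-- orders of `ζ` and of `FF = (s - 1) ζ` -/
lemma order_FF {s : ℂ} (hs : s ≠ 1) : analyticOrderNatAt riemannZeta s = mu s := by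
  unfold mu analyticOrderNatAt
  congr 1
  have h1 : ZU.J_g2b.FF =ᶠ[𝓝 s] fun v => (v - 1) * riemannZeta v := by
    filter_upwards [isOpen_ne.mem_nhds hs] with v hv
    exact FF_ne hv
  rw [analyticOrderAt_congr h1]
  have h2 : AnalyticAt ℂ (fun v : ℂ => v - 1) s := by fun_prop
  have h3 := Pool.Agent.Y21.FW.zeta_an hs
  have h4 : (fun v => (v - 1) * riemannZeta v) = (fun v : ℂ => v - 1) * riemannZeta := rfl
  rw [h4, analyticOrderAt_mul h2 h3, h2.analyticOrderAt_eq_zero.2 (sub_ne_zero.2 hs), zero_add]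

lemma Mz_of {z : ℂ} (h : |z.re| < 1 / 2) : Mz z = (mu (1 / 2 + z) : ℝ) := by
  unfold Mz
  rw [if_pos h, order_FF]
  apply ne_one_of
  rw [half_re]
  have := (abs_lt.1 h).2
  linarith

lemma Mz_off {z : ℂ} (h : ¬ |z.re| < 1 / 2) : Mz z = 0 := if_neg h

lemma Mz_nn (z : ℂ) : 0 ≤ Mz z := by
  unfold Mz
  split_ifs <;> positivity

lemma mu_ne {s : ℂ} (h : mu s ≠ 0) : ZU.J_g2b.FF s = 0 := by
  by_contra h1
  apply h
  have h2 := mu_cast s
  rw [(H353.FF_anal s).analyticOrderAt_eq_zero.2 h1] at h2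
  exact_mod_cast h2

lemma zeta_of_mu {s : ℂ} (hs : s.re < 1) (h : mu s ≠ 0) : riemannZeta s = 0 := by
  have h1 := mu_ne h
  rw [FF_ne (ne_one_of hs)] at h1
  rcases mul_eq_zero.1 h1 with h2 | h2
  · exact absurd (sub_eq_zero.1 h2) (ne_one_of hs)
  · exact h2

lemma Mz_ne {z : ℂ} (h : Mz z ≠ 0) : |z.re| < 1 / 2 ∧ mu (1 / 2 + z) ≠ 0 := by
  by_cases h1 : |z.re| < 1 / 2
  · refine ⟨h1, fun h2 => h ?_⟩
    rw [Mz_of h1, h2, Nat.cast_zero]
  · exact absurd (Mz_off h1) h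

lemma Mz_zero {z : ℂ} (h : Mz z ≠ 0) : riemannZeta (1 / 2 + z) = 0 := by
  obtain ⟨h1, h2⟩ := Mz_ne h
  refine zeta_of_mu ?_ h2
  rw [half_re]
  have := (abs_lt.1 h1).2
  linarith

lemma Mz_im {z : ℂ} (h : Mz z ≠ 0) : z.im ≠ 0 := by
  intro h0
  obtain ⟨h1, -⟩ := Mz_ne h
  have h2 := Mz_zero h
  rw [abs_lt] at h1
  have e : (1 / 2 + z : ℂ) = ((1 / 2 + z.re : ℝ) : ℂ) := by
    apply Complex.ext
    · simp
    · simp [h0]
  rw [e] at h2
  exact Pool.Agent.Y21.FW.real_ne (by linarith [h1.1]) (by linarith [h1.2]) h2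

lemma Mz_conj (z : ℂ) : Mz (conj z) = Mz z := by
  by_cases h : |z.re| < 1 / 2
  · have h' : |(conj z).re| < 1 / 2 := by rwa [Complex.conj_re]
    rw [Mz_of h, Mz_of h']
    have e : (1 / 2 + conj z : ℂ) = conj (1 / 2 + z) := by
      rw [map_add, map_div₀, map_one, Complex.conj_ofNat]
    rw [e, H353.mu_conj]
  · have h' : ¬ |(conj z).re| < 1 / 2 := by rwa [Complex.conj_re]
    rw [Mz_off h, Mz_off h']

lemma Mz_neg (z : ℂ) : Mz (-z) = Mz z := by
  by_cases h : |z.re| < 1 / 2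
  swap
  · have h' : ¬ |(-z).re| < 1 / 2 := by rwa [Complex.neg_re, abs_neg]
    rw [Mz_off h, Mz_off h']
  have h' : |(-z).re| < 1 / 2 := by rwa [Complex.neg_re, abs_neg]
  by_cases hi : z.im = 0
  · have a1 : Mz z = 0 := by
      by_contra h1
      exact Mz_im h1 hi
    have a2 : Mz (-z) = 0 := by
      by_contra h1
      exact Mz_im h1 (by rw [Complex.neg_im, hi, neg_zero])
    rw [a1, a2]
  · rw [Mz_of h', ← H353.mu_conj, Mz_of h]
    have him : (1 / 2 + z : ℂ).im ≠ 0 := by rwa [half_im]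
    have h1 := Pool.Agent.Y21.FW.mult_symm him
    have e : (1 - conj (1 / 2 + z) : ℂ) = conj (1 / 2 + -z) := by
      apply Complex.ext
      · simp; ring
      · simp
    rw [e] at h1
    rw [abs_lt] at h
    rw [← order_FF, ← order_FF, h1]
    · apply ne_one_of
      rw [half_re]
      linarith [h.2]
    · apply ne_one_of
      rw [Complex.conj_re, half_re, Complex.neg_re]
      linarith [h.1]

lemma Mz_one {z : ℂ} (h : Mz z ≠ 0) : 1 ≤ Mz z := by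
  obtain ⟨h1, h2⟩ := Mz_ne h
  rw [Mz_of h1]
  exact_mod_cast Nat.one_le_iff_ne_zero.2 h2

/-! ### reduction to a quadrant -/

lemma fold {g : ℂ → ℝ} (hg0 : ∀ z, 0 ≤ g z) (hg1 : ∀ z, g (conj z) = g z) (hg2 : ∀ z, g (-z) = g z) {C : ℝ}
    (h : ∀ S : Finset ℂ, (∀ z ∈ S, 0 ≤ z.re ∧ 0 < z.im) → ∑ z ∈ S, Mz z * g z ≤ C) (S : Finset ℂ) :
    ∑ z ∈ S, Mz z * g z ≤ 4 * C := by
  classical
  -- upper half plane
  have hup : ∀ S : Finset ℂ, (∀ z ∈ S, 0 < z.im) → ∑ z ∈ S, Mz z * g z ≤ 2 * C := by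
    intro S hS
    rw [← Finset.sum_filter_add_sum_filter_not S (fun z => 0 ≤ z.re)]
    have h1 := h (S.filter (fun z => 0 ≤ z.re)) (fun z hz => by
      rw [Finset.mem_filter] at hz
      exact ⟨hz.2, hS z hz.1⟩)
    have h2 := h ((S.filter (fun z => ¬ 0 ≤ z.re)).image (fun z => -conj z)) (fun z hz => by
      rw [Finset.mem_image] at hz
      obtain ⟨w, hw, rfl⟩ := hz
      rw [Finset.mem_filter, not_le] at hw
      constructor
      · simp only [Complex.neg_re, Complex.conj_re]; linarith [hw.2]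
      · simpa using hS w hw.1)
    rw [Finset.sum_image (fun a _ b _ hab => (starRingEnd ℂ).injective (neg_injective hab))] at h2
    have e : ∀ z, Mz (-conj z) * g (-conj z) = Mz z * g z := fun z => by
      rw [Mz_neg, Mz_conj, hg2, hg1]
    simp only [e] at h2
    linarith
  have hC : 0 ≤ C := by
    have := h ∅ (by simp)
    simpa using this
  rw [← Finset.sum_filter_add_sum_filter_not S (fun z => 0 < z.im)]
  have h1 := hup (S.filter (fun z => 0 < z.im)) (fun z hz => (Finset.mem_filter.1 hz).2)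
  rw [← Finset.sum_filter_add_sum_filter_not (S.filter (fun z => ¬ 0 < z.im)) (fun z => z.im < 0)]
  have h2 := hup (((S.filter (fun z => ¬ 0 < z.im)).filter (fun z => z.im < 0)).image (fun z => conj z)) (fun z hz => by
      rw [Finset.mem_image] at hz
      obtain ⟨w, hw, rfl⟩ := hz
      have := (Finset.mem_filter.1 hw).2
      simpa using this)
  rw [Finset.sum_image (fun a _ b _ hab => (starRingEnd ℂ).injective hab)] at h2
  have e : ∀ z, Mz (conj z) * g (conj z) = Mz z * g z := fun z => by rw [Mz_conj, hg1]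
  simp only [e] at h2
  have h3 : ∑ z ∈ (S.filter (fun z => ¬ 0 < z.im)).filter (fun z => ¬ z.im < 0), Mz z * g z = 0 := by
    refine Finset.sum_eq_zero fun z hz => ?_
    rw [Finset.mem_filter, Finset.mem_filter] at hz
    have h4 : z.im = 0 := le_antisymm (not_lt.1 hz.1.2) (not_lt.1 hz.2)
    have h5 : Mz z = 0 := by
      by_contra h6
      exact Mz_im h6 h4
    rw [h5, zero_mul]
  linarith

/-- from `FF`-zeros to `Mz` in a quadrant -/
lemma quad {g : ℂ → ℝ} {C : ℝ} (P : ℂ → Prop)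
    (h : ∀ S : Finset ℂ, (∀ ρ ∈ S, ZU.J_g2b.FF ρ = 0 ∧ 1 / 2 ≤ ρ.re ∧ 0 < ρ.im ∧ P ρ) →
      ∑ ρ ∈ S, (mu ρ : ℝ) * g (ρ - 1 / 2) ≤ C)
    (S : Finset ℂ) (hS : ∀ z ∈ S, 0 ≤ z.re ∧ 0 < z.im ∧ P (1 / 2 + z)) : ∑ z ∈ S, Mz z * g z ≤ C := by
  classical
  have h1 : ∑ z ∈ S, Mz z * g z = ∑ z ∈ S.filter (fun z => Mz z ≠ 0), Mz z * g z := by
    refine (Finset.sum_filter_of_ne fun z _ hz => ?_).symm
    intro h0
    rw [h0, zero_mul] at hz
    exact hz rfl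
  rw [h1]
  have h2 := h ((S.filter (fun z => Mz z ≠ 0)).image (fun z => 1 / 2 + z)) (fun ρ hρ => by
    rw [Finset.mem_image] at hρ
    obtain ⟨z, hz, rfl⟩ := hρ
    rw [Finset.mem_filter] at hz
    obtain ⟨a1, a2, a3⟩ := hS z hz.1
    refine ⟨mu_ne (Mz_ne hz.2).2, ?_, ?_, a3⟩
    · rw [half_re]; linarith
    · rw [half_im]; exact a2)
  rw [Finset.sum_image (fun a _ b _ hab => add_left_cancel hab)] at h2
  refine le_trans (le_of_eq (Finset.sum_congr rfl fun z hz => ?_)) h2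
  rw [Finset.mem_filter] at hz
  rw [Mz_of (Mz_ne hz.2).1, add_sub_cancel_left]

/-- number of zeros in `[T, 2T]` -/
lemma blk (ε : ℝ) (hε : 0 < ε) : ∃ C : ℝ, 0 < C ∧ ∀ T : ℝ, 3 ≤ T →
    ∀ S : Finset ℂ, (∀ ρ ∈ S, ZU.J_g2b.FF ρ = 0 ∧ 1 / 2 ≤ ρ.re ∧ T ≤ ρ.im ∧ ρ.im ≤ 2 * T) →
      ∑ ρ ∈ S, (mu ρ : ℝ) ≤ C * T ^ (1 + ε) := by
  classical
  -- for all `t ≥ 3`: `60 log (22 (5 + t)^2) ≤ C t ^ ε`
  obtain ⟨C, hC, hlog⟩ : ∃ C : ℝ, 0 < C ∧ ∀ t : ℝ, 1 ≤ t → 60 * Real.log (22 * (5 + t) ^ 2) ≤ C * t ^ ε := by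
    refine ⟨60 * ((22 * 36) ^ (ε / 2) / (ε / 2)), by positivity, fun t ht => ?_⟩
    have h1 : 22 * (5 + t) ^ 2 ≤ 22 * 36 * t ^ 2 := by nlinarith
    have h2 := Real.log_le_log (by positivity) h1
    have h3 := Real.log_le_rpow_div (show (0:ℝ) ≤ 22 * 36 * t ^ 2 by positivity) (show 0 < ε / 2 by positivity)
    rw [Real.mul_rpow (by norm_num) (by positivity)] at h3
    have h4 : (t ^ 2) ^ (ε / 2) = t ^ ε := by
      rw [← Real.rpow_natCast, ← Real.rpow_mul (by linarith)]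
      congr 1
      push_cast
      ring
    rw [h4] at h3
    calc 60 * Real.log (22 * (5 + t) ^ 2) ≤ 60 * ((22 * 36) ^ (ε / 2) * t ^ ε / (ε / 2)) :=
          mul_le_mul_of_nonneg_left (h2.trans h3) (by norm_num)
      _ = _ := by ring
  refine ⟨3 * C * 3 ^ ε, by positivity, fun T hT S hS => ?_⟩
  have hT0 : 0 < T := by linarith
  rw [← Finset.sum_fiberwise_of_maps_to (s := S) (t := Finset.Icc ⌊T⌋₊ ⌊2 * T⌋₊) (g := fun ρ => ⌊ρ.im⌋₊)
    (fun ρ hρ => by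
      obtain ⟨-, -, a1, a2⟩ := hS ρ hρ
      rw [Finset.mem_Icc]
      exact ⟨Nat.floor_mono a1, Nat.floor_mono a2⟩)]
  have hcard : ((Finset.Icc ⌊T⌋₊ ⌊2 * T⌋₊).card : ℝ) ≤ 3 * T := by
    rw [Nat.card_Icc]
    have h1 := Nat.floor_le (show 0 ≤ 2 * T by linarith)
    have h2 : ((⌊2 * T⌋₊ + 1 - ⌊T⌋₊ : ℕ) : ℝ) ≤ ((⌊2 * T⌋₊ + 1 : ℕ) : ℝ) := by exact_mod_cast Nat.sub_le _ _
    push_cast at h2 ⊢
    linarith
  calc ∑ k ∈ Finset.Icc ⌊T⌋₊ ⌊2 * T⌋₊, ∑ ρ ∈ S.filter (fun ρ => ⌊ρ.im⌋₊ = k), (mu ρ : ℝ)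
      ≤ ∑ k ∈ Finset.Icc ⌊T⌋₊ ⌊2 * T⌋₊, C * (3 * T) ^ ε := by
        refine Finset.sum_le_sum fun k hk => ?_
        rw [Finset.mem_Icc] at hk
        have h1 := H353.local_count (k : ℝ) (S.filter (fun ρ => ⌊ρ.im⌋₊ = k)) (fun ρ hρ => by
          rw [Finset.mem_filter] at hρ
          obtain ⟨a0, a1, a2, a3⟩ := hS ρ hρ.1
          refine ⟨a0, a1, ?_⟩
          have b1 := Nat.floor_le (show 0 ≤ ρ.im by linarith)
          have b2 := Nat.lt_floor_add_one ρ.im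
          rw [hρ.2] at b1 b2
          rw [abs_le]
          constructor <;> linarith)
        have hk0 : (0 : ℝ) ≤ k := Nat.cast_nonneg k
        rw [abs_of_nonneg hk0] at h1
        have hk1 : (1 : ℝ) ≤ k := by
          have : 3 ≤ ⌊T⌋₊ := Nat.le_floor (by exact_mod_cast hT)
          have h4 : 1 ≤ k := by omega
          exact_mod_cast h4
        have hk2 : (k : ℝ) ≤ 3 * T := by
          have h4 : (k : ℝ) ≤ ⌊2 * T⌋₊ := by exact_mod_cast hk.2
          have := Nat.floor_le (show 0 ≤ 2 * T by linarith)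
          linarith
        have h2 := hlog k hk1
        have h3 : (k : ℝ) ^ ε ≤ (3 * T) ^ ε := Real.rpow_le_rpow hk0 hk2 hε.le
        push_cast at h1
        calc _ ≤ C * (k : ℝ) ^ ε := h1.trans h2
          _ ≤ _ := by gcongr
    _ = ((Finset.Icc ⌊T⌋₊ ⌊2 * T⌋₊).card : ℝ) * (C * (3 * T) ^ ε) := by
        rw [Finset.sum_const, nsmul_eq_mul]
    _ ≤ (3 * T) * (C * (3 * T) ^ ε) := by gcongr
    _ = _ := by
        rw [Real.mul_rpow (by norm_num) hT0.le, Real.rpow_add hT0, Real.rpow_one]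
        ring

/-- the count with a power -/
lemma sum_im (s : ℝ) (hs : 1 < s) : ∃ C : ℝ, 0 < C ∧ ∀ S : Finset ℂ,
    (∀ ρ ∈ S, ZU.J_g2b.FF ρ = 0 ∧ 1 / 2 ≤ ρ.re ∧ 0 < ρ.im) → ∑ ρ ∈ S, (mu ρ : ℝ) / ρ.im ^ s ≤ C := by
  obtain ⟨C, hC, h⟩ := blk ((s - 1) / 2) (by linarith)
  exact Pool.Agent.W190.zsum (1 / 2) (1 + (s - 1) / 2) s (by linarith) (by linarith) C hC h

/-- all the zeros up to `T` -/
lemma dens_half (ε : ℝ) (hε : 0 < ε) : Pool.Agent.W190.Dens (1 / 2) (1 + ε) := by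
  obtain ⟨C, hC, h⟩ := sum_im (1 + ε) (by linarith)
  exact Pool.Agent.W190.dens_of_zsum (1 / 2) (1 + ε) (by norm_num) (by linarith) C hC h

lemma cntz (s : ℝ) (hs : 1 < s) : ∃ C : ℝ, 0 ≤ C ∧ ∀ S : Finset ℂ, ∑ z ∈ S, Mz z / (1 + |z.im|) ^ s ≤ C := by
  obtain ⟨C, hC, h⟩ := sum_im s hs
  refine ⟨4 * C, by positivity, fun S => ?_⟩
  have h1 := fold (g := fun z => 1 / (1 + |z.im|) ^ s) (fun z => by positivity) (fun z => by simp) (fun z => by simp)
    (C := C) (fun S hS => by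
      refine quad (g := fun z => 1 / (1 + |z.im|) ^ s) (C := C) (fun _ => True) (fun S hS => ?_) S
        (fun z hz => ⟨(hS z hz).1, (hS z hz).2, trivial⟩)
      refine le_trans (Finset.sum_le_sum fun ρ hρ => ?_) (h S fun ρ hρ => ⟨(hS ρ hρ).1, (hS ρ hρ).2.1, (hS ρ hρ).2.2.1⟩)
      have h0 := (hS ρ hρ).2.2.1
      have e : (ρ - 1 / 2 : ℂ).im = ρ.im := by simp
      rw [e, abs_of_pos h0, div_eq_mul_one_div (mu ρ : ℝ)]
      apply mul_le_mul_of_nonneg_left _ (Nat.cast_nonneg _)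
      apply one_div_le_one_div_of_le (by positivity)
      exact Real.rpow_le_rpow h0.le (by linarith) (by linarith)) S
  refine le_trans (le_of_eq (Finset.sum_congr rfl fun z _ => ?_)) h1
  rw [div_eq_mul_one_div]

end

end Pool.Agent.U156.LZ
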