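import Pool.Agent.U156.LZ.Data

/-!
# The density hypothesis for the zeros of zeta, from the density theorem of Carlson
-/

set_option autoImplicit false

open Complex Filter Topology Finset
open scoped ComplexConjugate

namespace Pool.Agent.U156.LZ

open Pool.Agent.N831.LI (Zs Dn)
open H353 (mu mu_cast mu_pos)

noncomputable section

lemma cnt_margin {δ ε : ℝ} (hδ : 0 ≤ δ) (hδ2 : δ < 1 / 2) (hε : 0 < ε) : ∃ C : ℝ, 0 ≤ C ∧
    ∀ T : ℝ, 1 ≤ T → ∀ S : Finset ℂ, (∀ s ∈ S, δ ≤ |s.re| ∧ |s.im| ≤ T) →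
      ∑ s ∈ S, Mz s ≤ C * T ^ ((1 - 4 * δ ^ 2) + ε) := by
  classical
  have hd : Pool.Agent.W190.Dens (1 / 2 + δ) ((1 - 4 * δ ^ 2) + ε) := by
    rcases hδ.eq_or_lt with h0 | h0
    · rw [← h0]
      have := dens_half ε hε
      simpa using this
    · have := Pool.Agent.W190.carlson (1 / 2 + δ) ε (by linarith) (by linarith) hε
      have e : 4 * (1 / 2 + δ) * (1 - (1 / 2 + δ)) + ε = (1 - 4 * δ ^ 2) + ε := by ring
      rwa [e] at this
  obtain ⟨C, hC, h⟩ := hd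
  refine ⟨4 * C, by positivity, fun T hT S hS => ?_⟩
  have h1 := fold (g := fun z => if δ ≤ |z.re| ∧ |z.im| ≤ T then (1:ℝ) else 0)
    (fun z => by
      show (0:ℝ) ≤ (if δ ≤ |z.re| ∧ |z.im| ≤ T then (1:ℝ) else 0)
      split_ifs <;> norm_num)
    (fun z => by simp) (fun z => by simp)
    (C := C * T ^ ((1 - 4 * δ ^ 2) + ε)) (fun S hS => by
      have h2 : ∑ z ∈ S, Mz z * (if δ ≤ |z.re| ∧ |z.im| ≤ T then (1:ℝ) else 0) =
          ∑ z ∈ S.filter (fun z => δ ≤ |z.re| ∧ |z.im| ≤ T), Mz z * 1 := by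
        rw [Finset.sum_filter]
        refine Finset.sum_congr rfl fun z _ => ?_
        split_ifs <;> simp
      rw [h2]
      refine quad (g := fun _ => 1) (fun ρ => 1 / 2 + δ ≤ ρ.re ∧ |ρ.im| ≤ T) (fun S hS => ?_) _ (fun z hz => ?_)
      · have h3 := h T hT S fun ρ hρ => ⟨(hS ρ hρ).1, (hS ρ hρ).2.2.2.1, (hS ρ hρ).2.2.2.2⟩
        simpa only [mul_one] using h3
      · rw [Finset.mem_filter] at hz
        obtain ⟨a1, a2, a3⟩ := hz
        obtain ⟨b1, b2⟩ := hS z a1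
        rw [abs_of_nonneg b1] at a2
        refine ⟨b1, b2, ?_, ?_⟩
        · rw [half_re]; linarith
        · rwa [half_im]) S
  refine le_trans (le_of_eq (Finset.sum_congr rfl fun z hz => ?_)) (h1.trans (le_of_eq (by ring)))
  rw [if_pos (hS z hz), mul_one]

/-- the density hypothesis -/
theorem dnz {κ : ℝ} (hκ : 0 < κ) {δ0 : ℝ} (h0 : 0 ≤ δ0) (h02 : δ0 ≤ 1 / 2)
    (hz : ∀ z, Mz z ≠ 0 → |z.re| ≤ δ0)
    (hc : ∀ δ : ℝ, 0 ≤ δ → δ ≤ δ0 → (1 - 4 * δ ^ 2) + 2 * κ * δ < 2) : Dn Mz κ := by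
  classical
  -- the minimum
  obtain ⟨x, hx, hmin⟩ := isCompact_Icc.exists_isMinOn (s := Set.Icc 0 δ0)
    (f := fun δ : ℝ => 2 - ((1 - 4 * δ ^ 2) + 2 * κ * δ)) ⟨0, le_rfl, h0⟩ (by fun_prop)
  set m0 : ℝ := 2 - ((1 - 4 * x ^ 2) + 2 * κ * x) with hm0
  have hm0p : 0 < m0 := by
    have := hc x hx.1 hx.2
    rw [hm0]; linarith
  have hmin' : ∀ δ, 0 ≤ δ → δ ≤ δ0 → m0 ≤ 2 - ((1 - 4 * δ ^ 2) + 2 * κ * δ) := fun δ h1 h2 =>
    hmin (⟨h1, h2⟩ : δ ∈ Set.Icc 0 δ0)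
  set η : ℝ := m0 / 4 with hη
  have hη0 : 0 < η := by rw [hη]; linarith
  obtain ⟨J, hJ⟩ := exists_nat_gt (max 1 (κ / η))
  have hJ1 : (1 : ℝ) < J := (le_max_left _ _).trans_lt hJ
  have hJκ : κ / η < J := (le_max_right _ _).trans_lt hJ
  set μ : ℝ := 1 / (2 * J) with hμ
  have hμ0 : 0 < μ := by positivity
  have hκμ : 2 * κ * μ ≤ η := by
    rw [div_lt_iff₀ hη0] at hJκ
    rw [hμ]
    have : 2 * κ * (1 / (2 * J)) = κ / J := by field_simp
    rw [this, div_le_iff₀ (by linarith)]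
    linarith
  have hJμ : J * μ = 1 / 2 := by rw [hμ]; field_simp
  -- each layer
  have hlayer : ∀ j : ℕ, ∃ C : ℝ, 0 ≤ C ∧ ∀ T : ℝ, 1 ≤ T → ∀ S : Finset ℂ,
      (∀ z ∈ S, Mz z ≠ 0 ∧ |z.im| ≤ T ∧ j * μ ≤ |z.re| ∧ |z.re| < (j + 1) * μ) →
      ∑ z ∈ S, Mz z * T ^ (2 * κ * |z.re|) ≤ C * T ^ (2 - η) := by
    intro j
    by_cases hj : (j : ℝ) * μ ≤ δ0
    swap
    · refine ⟨0, le_rfl, fun T hT S hS => ?_⟩
      rw [zero_mul]
      refine (Finset.sum_eq_zero fun z hz1 => ?_).le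
      exfalso
      obtain ⟨a1, a2, a3, a4⟩ := hS z hz1
      exact hj (a3.trans (hz z a1))
    by_cases hj2 : (j : ℝ) * μ < 1 / 2
    swap
    · refine ⟨0, le_rfl, fun T hT S hS => ?_⟩
      rw [zero_mul]
      refine (Finset.sum_eq_zero fun z hz1 => ?_).le
      exfalso
      obtain ⟨a1, a2, a3, a4⟩ := hS z hz1
      have := (Mz_ne a1).1
      linarith
    have hjμ0 : (0:ℝ) ≤ j * μ := by positivity
    have hf := hmin' (j * μ) hjμ0 hj
    obtain ⟨C, hC, hcn⟩ := cnt_margin hjμ0 hj2 hη0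
    refine ⟨C, hC, fun T hT S hS => ?_⟩
    have hT0 : 0 < T := by linarith
    calc ∑ z ∈ S, Mz z * T ^ (2 * κ * |z.re|)
        ≤ ∑ z ∈ S, Mz z * T ^ (2 * κ * (j * μ) + η) := by
          refine Finset.sum_le_sum fun z hz1 => ?_
          have h3 := (hS z hz1).2.2.2
          apply mul_le_mul_of_nonneg_left _ (Mz_nn z)
          apply Real.rpow_le_rpow_of_exponent_le hT
          nlinarith
      _ = (∑ z ∈ S, Mz z) * T ^ (2 * κ * (j * μ) + η) := by rw [Finset.sum_mul]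
      _ ≤ (C * T ^ ((1 - 4 * (j * μ) ^ 2) + η)) * T ^ (2 * κ * (j * μ) + η) := by
          gcongr
          exact hcn T hT S fun z hz1 => ⟨(hS z hz1).2.2.1, (hS z hz1).2.1⟩
      _ = C * T ^ (((1 - 4 * (j * μ) ^ 2) + η) + (2 * κ * (j * μ) + η)) := by
          rw [mul_assoc, ← Real.rpow_add hT0]
      _ ≤ C * T ^ (2 - η) := by
          gcongr
          linarith
  choose Cj hCj0 hCj using hlayer
  refine ⟨η, hη0, ∑ j ∈ range (J + 1), Cj j, Finset.sum_nonneg fun j _ => hCj0 j, fun T hT S hS => ?_⟩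
  have hT0 : 0 < T := by linarith
  have hres : ∑ z ∈ S, Mz z * T ^ (2 * κ * |z.re|) = ∑ z ∈ S.filter (fun z => Mz z ≠ 0), Mz z * T ^ (2 * κ * |z.re|) := by
    refine (Finset.sum_filter_of_ne fun z _ hz => ?_).symm
    intro h0
    rw [h0, zero_mul] at hz
    exact hz rfl
  rw [hres]
  rw [← Finset.sum_fiberwise_of_maps_to (s := S.filter (fun z => Mz z ≠ 0)) (t := range (J + 1))
    (g := fun z => ⌊|z.re| / μ⌋₊) (fun z hz1 => by
      rw [Finset.mem_filter] at hz1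
      rw [Finset.mem_range, Nat.floor_lt (by positivity), div_lt_iff₀ hμ0]
      have h3 := (hz z hz1.2).trans h02
      push_cast
      rw [add_mul, hJμ, one_mul]
      linarith)]
  rw [Finset.sum_mul]
  refine Finset.sum_le_sum fun j _ => ?_
  refine hCj j T hT _ fun z hz1 => ?_
  rw [Finset.mem_filter, Finset.mem_filter] at hz1
  have h3 : (j : ℝ) ≤ |z.re| / μ := by
    rw [← hz1.2]
    exact Nat.floor_le (by positivity)
  have h4 : |z.re| / μ < j + 1 := by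
    rw [← hz1.2]
    exact Nat.lt_floor_add_one _
  rw [le_div_iff₀ hμ0] at h3
  rw [div_lt_iff₀ hμ0] at h4
  exact ⟨hz1.1.2, hS z hz1.1.1, h3, h4⟩

/-- the condition in the range `[0, d]` -/
lemma cond {κ d : ℝ} (hd : 0 < d) (hd2 : d ≤ 1 / 2) (hκ : κ < 1 / (2 * d) + 2 * d) :
    ∀ δ : ℝ, 0 ≤ δ → δ ≤ d → (1 - 4 * δ ^ 2) + 2 * κ * δ < 2 := by
  intro δ h1 h2
  have h3 : 2 * d * κ < 1 + 4 * d ^ 2 := by
    have : 2 * d * κ < 2 * d * (1 / (2 * d) + 2 * d) := mul_lt_mul_of_pos_left hκ (by linarith)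
    have e : 2 * d * (1 / (2 * d) + 2 * d) = 1 + 4 * d ^ 2 := by field_simp; ring
    linarith
  rcases h1.eq_or_lt with h4 | h4
  · rw [← h4]; norm_num
  -- `2 δ κ < 1 + 4 δ²`
  have h5 : d * (2 * δ * κ) < d * (1 + 4 * δ ^ 2) := by
    have h6 : δ * (2 * d * κ) < δ * (1 + 4 * d ^ 2) := mul_lt_mul_of_pos_left h3 h4
    have h7 : δ * (1 + 4 * d ^ 2) ≤ d * (1 + 4 * δ ^ 2) := by
      have : 0 ≤ (d - δ) * (1 - 4 * d * δ) := by
        apply mul_nonneg (by linarith)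
        nlinarith
      nlinarith
    nlinarith
  have h6 := lt_of_mul_lt_mul_left h5 hd.le
  linarith

end

end Pool.Agent.U156.LZ
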