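import Pool.Agent.U156.LZ.Cmp
import Pool.Agent.N831.LI.Conv

/-!
# Li coefficients of zeta: from the abstract setting to the zeros of zeta
-/

set_option autoImplicit false

open Complex Filter Topology Finset MeasureTheory

namespace Pool.Agent.U156.LZ

open Pool.Agent.N831.LI (W Dn)

noncomputable section

/-- (from the starting file `Pool.Agent.H353R3.S6`) -/
theorem RH_of (h : ∀ s : ℂ, 1 / 2 < s.re → s ≠ 1 → riemannZeta s ≠ 0) : RiemannHypothesis := by
  intro s hs htriv h1
  by_contra hne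
  rcases lt_or_gt_of_ne hne with hlt | hgt
  · by_cases h0 : s.re < 0
    · -- trivial zeros
      have h2 : ∀ n : ℕ, (1 - s) ≠ -n := by
        intro n hn
        have := congrArg Complex.re hn
        simp at this
        have : (0:ℝ) ≤ n := Nat.cast_nonneg n
        linarith
      have h3 : (1 - s) ≠ 1 := by
        intro h3
        have := congrArg Complex.re h3
        simp at this
        linarith
      have key := riemannZeta_one_sub h2 h3
      rw [sub_sub_cancel, hs] at key
      have hz : riemannZeta (1 - s) ≠ 0 := riemannZeta_ne_zero_of_one_lt_re (by simp; linarith)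
      have hG : Complex.Gamma (1 - s) ≠ 0 := Complex.Gamma_ne_zero h2
      have hp : (2 * (Real.pi : ℂ)) ^ (-(1 - s)) ≠ 0 := by
        rw [Complex.cpow_ne_zero_iff]
        left
        have := Real.pi_ne_zero
        simpa using this
      have hc : Complex.cos (Real.pi * (1 - s) / 2) = 0 := by
        by_contra hc
        exact (mul_ne_zero (mul_ne_zero (mul_ne_zero (mul_ne_zero two_ne_zero hp) hG) hc) hz) key.symm
      rw [Complex.cos_eq_zero_iff] at hc
      obtain ⟨k, hk⟩ := hc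
      have hpi : (Real.pi : ℂ) ≠ 0 := by exact_mod_cast Real.pi_ne_zero
      have hs2 : s = -2 * (k : ℂ) := by
        field_simp at hk
        linear_combination (-1 : ℂ) * hk
      have hkpos : 0 < k := by
        have := congrArg Complex.re hs2
        simp at this
        have h5 : (0:ℝ) < k := by linarith
        exact_mod_cast h5
      apply htriv
      refine ⟨(k - 1).toNat, ?_⟩
      have h6 : (((k - 1).toNat : ℕ) : ℂ) = (k : ℂ) - 1 := by
        have : (((k - 1).toNat : ℤ)) = k - 1 := Int.toNat_of_nonneg (by omega)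
        have h7 : (((k - 1).toNat : ℤ) : ℂ) = ((k - 1 : ℤ) : ℂ) := by rw [this]
        push_cast at h7
        exact_mod_cast h7
      rw [h6, hs2]
      ring
    · have h2 : ∀ n : ℕ, s ≠ -n := by
        intro n hn
        rcases Nat.eq_zero_or_pos n with h5 | h5
        · rw [hn, h5] at hs
          simp [riemannZeta_zero] at hs
        · have := congrArg Complex.re hn
          simp at this
          have h6 : (1:ℝ) ≤ n := by exact_mod_cast h5
          linarith
      have key := riemannZeta_one_sub h2 h1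
      rw [hs, mul_zero] at key
      refine h (1 - s) (by simp; linarith) ?_ key
      intro h3
      have : s = 0 := by linear_combination -h3
      rw [this] at hs
      simp [riemannZeta_zero] at hs
  · exact h s hgt h1 hs

/-! ### the sum over the zeros of zeta -/

/-- sums over the zeros of zeta in the open strip -/
lemma tsum_zeros (g : ℂ → ℝ) : ∑' ρ : {ρ : ℂ // riemannZeta ρ = 0 ∧ 0 < ρ.re ∧ ρ.re < 1},
      (analyticOrderNatAt riemannZeta (ρ : ℂ) : ℝ) * g ρ = ∑' z : ℂ, Mz z * g (1 / 2 + z) := by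
  classical
  rw [← (Equiv.addLeft (1 / 2 : ℂ)).symm.tsum_eq (fun z : ℂ => Mz z * g (1 / 2 + z))]
  have e0 := tsum_subtype {ρ : ℂ | riemannZeta ρ = 0 ∧ 0 < ρ.re ∧ ρ.re < 1} (fun ρ : ℂ =>
    (analyticOrderNatAt riemannZeta ρ : ℝ) * g ρ)
  refine Eq.trans e0 (tsum_congr fun ρ => ?_)
  have e : (Equiv.addLeft (1 / 2 : ℂ)).symm ρ = -(1 / 2) + ρ := rfl
  rw [e]
  have e2 : (1 / 2 + (-(1 / 2) + ρ) : ℂ) = ρ := by ring
  rw [e2]
  have e3 : (-(1 / 2) + ρ : ℂ).re = ρ.re - 1 / 2 := by simp; ring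
  by_cases h0 : riemannZeta ρ = 0 ∧ 0 < ρ.re ∧ ρ.re < 1
  · rw [Set.indicator_of_mem (show ρ ∈ {ρ : ℂ | riemannZeta ρ = 0 ∧ 0 < ρ.re ∧ ρ.re < 1} from h0)]
    unfold Mz
    rw [if_pos, e2]
    rw [e3, abs_lt]
    constructor <;> linarith [h0.2.1, h0.2.2]
  · rw [Set.indicator_of_notMem (show ρ ∉ {ρ : ℂ | riemannZeta ρ = 0 ∧ 0 < ρ.re ∧ ρ.re < 1} from h0)]
    have h1 : Mz (-(1 / 2) + ρ) = 0 := by
      by_contra h2
      rw [← ne_eq, Mz_ne_iff, e2, e3, abs_lt] at h2
      exact h0 ⟨h2.2, by linarith [h2.1.1], by linarith [h2.1.2]⟩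
    rw [h1, zero_mul]

/-- summability over the zeros of zeta in the open strip -/
lemma summable_zeros (g : ℂ → ℝ) (h : Summable fun z : ℂ => Mz z * g (1 / 2 + z)) :
    Summable fun ρ : {ρ : ℂ // riemannZeta ρ = 0 ∧ 0 < ρ.re ∧ ρ.re < 1} =>
      (analyticOrderNatAt riemannZeta (ρ : ℂ) : ℝ) * g ρ := by
  have hinj : Function.Injective (fun ρ : {ρ : ℂ // riemannZeta ρ = 0 ∧ 0 < ρ.re ∧ ρ.re < 1} => ((ρ : ℂ) - 1 / 2)) :=
    fun a b hab => Subtype.ext (sub_left_injective hab)
  have h1 := h.comp_injective hinj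
  refine h1.congr fun ρ => ?_
  obtain ⟨ρ, h0⟩ := ρ
  show Mz (ρ - 1 / 2) * g (1 / 2 + (ρ - 1 / 2)) = _
  have e2 : (1 / 2 + (ρ - 1 / 2) : ℂ) = ρ := by ring
  rw [e2]
  unfold Mz
  rw [if_pos, e2]
  have e3 : (ρ - 1 / 2 : ℂ).re = ρ.re - 1 / 2 := by simp
  rw [e3, abs_lt]
  constructor <;> linarith [h0.2.1, h0.2.2]

/-- the two forms of the term -/
lemma term_eq (a : ℝ) (n : ℕ) (z : ℂ) :
    (1 - (((1 / 2 + z) - (a : ℂ)) / ((1 / 2 + z) + a - 1)) ^ n).re = 1 - (W (a - 1 / 2) z ^ n).re := by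
  unfold W
  rw [Complex.sub_re, Complex.one_re]
  have e3 : ((1 / 2 + z) - (a : ℂ)) = z - ((a - 1 / 2 : ℝ) : ℂ) := by push_cast; ring
  have e4 : ((1 / 2 + z) + (a : ℂ) - 1) = z + ((a - 1 / 2 : ℝ) : ℂ) := by push_cast; ring
  rw [e3, e4]

/-! ### the shift by `1 / 2` -/

lemma range_shift {κ κ' : ℝ} (hκ : 0 < κ) (h : κ < κ') : ∀ᶠ a : ℝ in atTop,
    κ * a * Real.log a ≤ κ' * (a - 1 / 2) * Real.log (a - 1 / 2) := by
  obtain ⟨d, hd0, hd1, hd⟩ : ∃ d : ℝ, 0 < d ∧ d < 1 ∧ κ ≤ κ' * (1 - d) ^ 2 := by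
    have hκ' : 0 < κ' := by linarith
    have hk : 0 < (κ' - κ) / (2 * κ') := by apply div_pos <;> linarith
    have hk1 : (κ' - κ) / (2 * κ') < 1 := by rw [div_lt_one (by linarith)]; linarith
    refine ⟨(κ' - κ) / (2 * κ'), hk, hk1, ?_⟩
    set e := (κ' - κ) / (2 * κ') with he
    have h2 : 2 * κ' * e = κ' - κ := by rw [he]; field_simp
    nlinarith [sq_nonneg e]
  have e2 := Real.tendsto_log_atTop.eventually_ge_atTop (Real.log 2 / d)
  filter_upwards [eventually_ge_atTop (1 / d), e2, eventually_ge_atTop (2 : ℝ)] with a h1 h2 h3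
  rw [div_le_iff₀ hd0] at h1 h2
  have hL : 0 ≤ Real.log a := Real.log_nonneg (by linarith)
  have h4 : (1 - d) * a ≤ a - 1 / 2 := by linarith
  have h5 : (1 - d) * Real.log a ≤ Real.log (a - 1 / 2) := by
    have h6 : Real.log (a / 2) ≤ Real.log (a - 1 / 2) := Real.log_le_log (by positivity) (by linarith)
    rw [Real.log_div (by positivity) (by norm_num)] at h6
    linarith
  have hκ' : 0 < κ' := by linarith
  have hd3 : 0 < 1 - d := by linarith
  calc κ * a * Real.log a ≤ (κ' * (1 - d) ^ 2) * a * Real.log a := by gcongr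
    _ = κ' * ((1 - d) * a) * ((1 - d) * Real.log a) := by ring
    _ ≤ _ := by
      have h7 : 0 ≤ a - 1 / 2 := by linarith
      gcongr

/-- from `b` to `a = b + 1 / 2` in the main term -/
lemma main_shift {ε : ℝ} (hε : 0 < ε) : ∀ᶠ a : ℝ in atTop, ∀ n : ℕ, 1 ≤ n → ∀ x : ℝ,
    |x - n * (a - 1 / 2) * Real.log (n * (a - 1 / 2))| ≤ ε / 2 * (n * (a - 1 / 2) * Real.log (n * (a - 1 / 2))) →
    |x - n * a * Real.log (n * a)| ≤ ε * (n * a * Real.log (n * a)) := by
  filter_upwards [eventually_ge_atTop (3 : ℝ), eventually_ge_atTop (2 / ε)] with a h3 he n hn x hx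
  have hn1 : (1 : ℝ) ≤ n := by exact_mod_cast hn
  set b : ℝ := a - 1 / 2 with hb
  have hab : a = b + 1 / 2 := by rw [hb]; ring
  have hb0 : 0 < b := by rw [hb]; linarith
  have ha0 : 0 < a := by linarith
  have hna : 3 ≤ n * a := by nlinarith
  have hnb : 1 ≤ n * b := by nlinarith
  have hl1 : 1 ≤ Real.log (n * a) := by
    rw [Real.le_log_iff_exp_le (by positivity)]
    have := Real.exp_one_lt_d9
    linarith
  have hlb0 : 0 ≤ Real.log (n * b) := Real.log_nonneg hnb
  have hle : Real.log (n * b) ≤ Real.log (n * a) := Real.log_le_log (by positivity) (by gcongr; linarith)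
  have hdiff : Real.log (n * a) - Real.log (n * b) ≤ 1 / (2 * b) := by
    rw [← Real.log_div (by positivity) (by positivity)]
    have e : (n : ℝ) * a / (n * b) = 1 + 1 / (2 * b) := by
      rw [hab]
      field_simp
    rw [e]
    have := Real.log_le_sub_one_of_pos (show 0 < 1 + 1 / (2 * b) by positivity)
    linarith
  -- the difference of the main terms
  have hm1 : n * b * Real.log (n * b) ≤ n * a * Real.log (n * a) := by
    apply mul_le_mul _ hle hlb0 (by positivity)
    gcongr
    linarith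
  have hm2 : n * a * Real.log (n * a) - n * b * Real.log (n * b) ≤ n * Real.log (n * a) := by
    have e : n * a * Real.log (n * a) - n * b * Real.log (n * b) =
        n * Real.log (n * a) / 2 + n * b * (Real.log (n * a) - Real.log (n * b)) := by
      rw [hab]; ring
    rw [e]
    have h5 : n * b * (Real.log (n * a) - Real.log (n * b)) ≤ n * b * (1 / (2 * b)) := by gcongr
    have h6 : (n : ℝ) * b * (1 / (2 * b)) = n / 2 := by field_simp
    have h7 : (n : ℝ) / 2 ≤ n * Real.log (n * a) / 2 := by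
      have : (n : ℝ) * 1 ≤ n * Real.log (n * a) := by gcongr
      linarith
    linarith
  have hm3 : n * Real.log (n * a) ≤ ε / 2 * (n * a * Real.log (n * a)) := by
    rw [div_le_iff₀ hε] at he
    have : 2 * (n * Real.log (n * a)) ≤ (a * ε) * (n * Real.log (n * a)) := by gcongr
    linarith
  have hm4 : ε / 2 * (n * b * Real.log (n * b)) ≤ ε / 2 * (n * a * Real.log (n * a)) := by gcongr
  have h8 := abs_le.1 hx
  rw [abs_le]
  constructor <;> linarith [h8.1, h8.2]

/-- the law for all `n`, if all the zeros are on the line -/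
theorem law_rh (h : ∀ z, Mz z ≠ 0 → z.re = 0) {ε : ℝ} (hε : 0 < ε) :
    ∀ᶠ b : ℝ in atTop, ∀ n : ℕ, 1 ≤ n →
      |Pool.Agent.N831.LI.li Mz b n - n * b * Real.log (n * b)| ≤ ε * (n * b * Real.log (n * b)) := by
  obtain ⟨X1, hX1, h2⟩ := ksum hε
  filter_upwards [eventually_ge_atTop X1] with b hb n hn
  have hn1 : (1 : ℝ) ≤ n := by exact_mod_cast hn
  have hb0 : 0 < b := by linarith
  have hbn : b ≤ n * b := le_mul_of_one_le_left hb0.le hn1
  have e : Pool.Agent.N831.LI.li Mz b n = ∑' z : ℂ, Mz z * fk b n z.im := by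
    unfold Pool.Agent.N831.LI.li
    refine tsum_congr fun z => ?_
    by_cases h0 : Mz z = 0
    · rw [h0, zero_mul, zero_mul]
    · have h1 := h z h0
      have h3 : z = (z.im : ℂ) * I := by
        conv_lhs => rw [← Complex.re_add_im z, h1]
        simp
      unfold fk wl
      rw [← h3]
  rw [e]
  exact h2 b hb0 n (hb.trans hbn)

end

end Pool.Agent.U156.LZ
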