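import Pool.Agent.U156.LZ.Dens
import Pool.Agent.N831.LI.Key
import Pool.Agent.H965R2.SI.CountShort
import Pool.Agent.H370R2.DirGood

/-!
# The zeros of zeta satisfy the axioms of `Pool.Agent.N831.LI.Zs`
-/

set_option autoImplicit false

open Complex Filter Topology Finset
open scoped ComplexConjugate

namespace Pool.Agent.U156.LZ

open Pool.Agent.N831.LI (Zs Dn)
open H353 (mu mu_cast mu_pos)
open ZU.J_g2b (FF_one FF_ne FF_zero_re)
open H370 (NN zset mult zset_finite good_zeta nn_asymp)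

noncomputable section

lemma Mz_ne_iff {z : ℂ} : Mz z ≠ 0 ↔ |z.re| < 1 / 2 ∧ riemannZeta (1 / 2 + z) = 0 := by
  constructor
  · intro h
    exact ⟨(Mz_ne h).1, Mz_zero h⟩
  · rintro ⟨h1, h2⟩
    rw [Mz_of h1]
    have h3 : ZU.J_g2b.FF (1 / 2 + z) = 0 := by
      rw [FF_ne, h2, mul_zero]
      apply ne_one_of
      rw [half_re]
      have := (abs_lt.1 h1).2
      linarith
    have := mu_pos _ h3
    exact_mod_cast (Nat.one_le_iff_ne_zero.1 this)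

lemma zset_iff {T1 T2 : ℝ} (s : ℂ) : s ∈ zset riemannZeta T1 T2 ↔ Mz (s - 1 / 2) ≠ 0 ∧ T1 < (s - 1 / 2).im ∧
    (s - 1 / 2).im ≤ T2 := by
  rw [Mz_ne_iff]
  have e : (1 / 2 + (s - 1 / 2) : ℂ) = s := by ring
  have e1 : (s - 1 / 2 : ℂ).re = s.re - 1 / 2 := by simp
  have e2 : (s - 1 / 2 : ℂ).im = s.im := by simp
  rw [e, e1, e2, abs_lt]
  constructor
  · rintro ⟨h1, h2, h3, h4, h5⟩
    exact ⟨⟨⟨by linarith, by linarith⟩, h5⟩, h3, h4⟩
  · rintro ⟨⟨⟨h1, h2⟩, h5⟩, h3, h4⟩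
    exact ⟨by linarith, by linarith, h3, h4, h5⟩

theorem NN_Mz {T1 : ℝ} (T2 : ℝ) (h : 1 ≤ T1) : ∃ S : Finset ℂ, (∀ z, z ∈ S ↔ Mz z ≠ 0 ∧ T1 < z.im ∧ z.im ≤ T2) ∧
    (NN riemannZeta T1 T2 : ℝ) = ∑ z ∈ S, Mz z := by
  classical
  refine ⟨(zset_finite good_zeta T1 T2 h).toFinset.image (fun s => s - 1 / 2), fun z => ?_, ?_⟩
  · rw [Finset.mem_image]
    constructor
    · rintro ⟨s, hs, rfl⟩
      rw [Set.Finite.mem_toFinset, zset_iff] at hs
      exact hs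
    · intro hz
      refine ⟨1 / 2 + z, ?_, by ring⟩
      rw [Set.Finite.mem_toFinset, zset_iff]
      have e : (1 / 2 + z - 1 / 2 : ℂ) = z := by ring
      rwa [e]
  · rw [H370.NN_eq_sum good_zeta T1 T2 h, Finset.sum_image (fun a _ b _ hab => sub_left_injective hab)]
    push_cast
    refine Finset.sum_congr rfl fun s hs => ?_
    rw [Set.Finite.mem_toFinset] at hs
    have h1 := ((zset_iff s).1 hs).1
    unfold Mz
    rw [if_pos (Mz_ne h1).1]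
    have e : (1 / 2 + (s - 1 / 2) : ℂ) = s := by ring
    rw [e]
    rfl

theorem lowz : ∃ c : ℝ, 0 < c ∧ ∃ Y0 : ℝ, 1 ≤ Y0 ∧ ∀ Y : ℝ, Y0 ≤ Y → ∃ S : Finset ℂ,
    (∀ z ∈ S, Y < z.im ∧ z.im ≤ 2 * Y) ∧ c * Y * Real.log Y ≤ ∑ z ∈ S, Mz z := by
  obtain ⟨C, T0, hC, hT0, h⟩ := nn_asymp good_zeta
  have hpi := Real.pi_pos
  have hpi4 := Real.pi_le_four
  refine ⟨1 / 16, by norm_num, max T0 (Real.exp (16 * C)), (by linarith : (1:ℝ) ≤ T0).trans (le_max_left _ _),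
    fun Y hY => ?_⟩
  have hY1 : T0 ≤ Y := (le_max_left _ _).trans hY
  have hY2 : Real.exp (16 * C) ≤ Y := (le_max_right _ _).trans hY
  have hY0 : 0 < Y := by linarith
  obtain ⟨S, hS1, hS2⟩ := NN_Mz (2 * Y) (show 1 ≤ Y by linarith)
  refine ⟨S, fun z hz => ((hS1 z).1 hz).2, ?_⟩
  rw [← hS2]
  have h1 := h Y hY1 Y (2 * Y) le_rfl (by linarith) (by linarith) le_rfl
  have h2 := (abs_le.1 h1).1
  have h3 : 16 * C ≤ Real.log Y := (Real.le_log_iff_exp_le hY0).2 hY2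
  have hL : 0 ≤ Real.log Y := by linarith
  have h4 : Y * Real.log Y / 8 ≤ Y * Real.log Y / (2 * Real.pi) := by
    apply div_le_div_of_nonneg_left (by positivity) (by positivity) (by linarith)
  have h5 : Y * (16 * C) ≤ Y * Real.log Y := mul_le_mul_of_nonneg_left h3 hY0.le
  linarith

theorem zsz : Zs Mz := ⟨Mz_nn, fun _ h => Mz_one h, fun _ h => (Mz_ne h).1, Mz_conj, Mz_neg, cntz, lowz⟩

end

end Pool.Agent.U156.LZ
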